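import Pool.Agent.FKT.Data

/-! Kernel check: the relation `D_{01} Λ_{25} = D_{25} Λ_{01}` in the radical. -/

namespace Pool.Agent.FKT

open T

set_option maxRecDepth 100000 in
theorem chk3 : zc3 12 Z3 = true := by decide +kernel

set_option maxRecDepth 100000 in
theorem chk3i : isZ (sub (r34 Z3) Z3) = true := by decide +kernel

end Pool.Agent.FKT
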