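import Pool.Agent.FKT.Data

/-! Kernel check: the relation `D_{01} Λ_{15} + D_{15} Λ_{50} + D_{50} Λ_{01} = 0` in the radical. -/

namespace Pool.Agent.FKT

open T

set_option maxRecDepth 100000 in
theorem chk5 : zc2 12 Z5 = true := by decide +kernel

set_option maxRecDepth 100000 in
theorem chk5i : and (isZ (sub (r23 Z5) Z5)) (and (isZ (sub (r24 Z5) Z5))
    (isZ (sub (r34 Z5) Z5))) = true := by decide +kernel

end Pool.Agent.FKT
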