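import Pool.Agent.FKT.Data

/-! Kernel checks: `D_{05} Λ_{05} = 0`, invariance of `P`, `A`, `B`. -/

namespace Pool.Agent.FKT

open T

set_option maxRecDepth 100000 in
theorem chk1 : isZ Z1 = true := by decide +kernel

set_option maxRecDepth 100000 in
theorem chkA : and (isZ (sub (r12 A) A)) (and (isZ (sub (r13 A) A)) (and (isZ (sub (r14 A) A))
    (and (isZ (sub (r23 A) A)) (and (isZ (sub (r24 A) A)) (isZ (sub (r34 A) A)))))) = true := by
  decide +kernel

set_option maxRecDepth 100000 in
theorem chkB : and (isZ (add (r01 B) B)) (and (isZ (sub (r23 B) B)) (and (isZ (sub (r24 B) B))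
    (isZ (sub (r34 B) B)))) = true := by
  decide +kernel

set_option maxRecDepth 100000 in
theorem chkP1 : and (isZ (sub (r01 P) P)) (and (isZ (sub (r02 P) P)) (and (isZ (sub (r03 P) P))
    (and (isZ (sub (r04 P) P)) (isZ (sub (r12 P) P))))) = true := by
  decide +kernel

set_option maxRecDepth 100000 in
theorem chkP2 : and (isZ (sub (r13 P) P)) (and (isZ (sub (r14 P) P)) (and (isZ (sub (r23 P) P))
    (and (isZ (sub (r24 P) P)) (isZ (sub (r34 P) P))))) = true := by
  decide +kernel

end Pool.Agent.FKT
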