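import Pool.Agent.FKT.Data

/-! Kernel check: all iterated derivations of `P` vanish. -/

namespace Pool.Agent.FKT

open T

set_option maxRecDepth 100000 in
theorem chkP : zc0 14 P = true := by decide +kernel

end Pool.Agent.FKT
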