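import Pool.Agent.FKT.Val

/-! Kernel check: the value of the functional on `P0` is `-2`. -/

namespace Pool.Agent.FKT

open T

set_option maxRecDepth 100000 in
theorem chkV : (P0L.map fun p => p.1 * val p.2).sum = -2 := by decide +kernel

end Pool.Agent.FKT
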