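import Pool.Agent.FKT.Trie

/-! The certificate: the element `P` (sum over `S_5` of 12 words) and the elements `A`
(`Λ_{05}`, sum over the permutations of `1..4` of 2 words) and `B` (`Λ_{01}`, sum over the
permutations of `2..4` of 25 words, antisymmetrised in `0, 1`). -/

namespace Pool.Agent.FKT

open T

/-- symmetrisation steps over all permutations of `0..4` -/
noncomputable def a1 (t : T) : T := add t (r01 t)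
/-- step -/
noncomputable def a2 (t : T) : T := add t (add (r02 t) (r12 t))
/-- step -/
noncomputable def a3 (t : T) : T := add t (add (r03 t) (add (r13 t) (r23 t)))
/-- step -/
noncomputable def a4 (t : T) : T := add t (add (r04 t) (add (r14 t) (add (r24 t) (r34 t))))

/-- the 12 words of `P` -/
def P0L : List (ℤ × List ℕ) := [(1, [4, 2, 3, 2, 0, 1, 0, 4, 2, 3, 2, 0, 1, 0]),
  ((-2), [1, 3, 4, 3, 2, 0, 1, 0, 3, 4, 3, 2, 1, 0]),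
  (2, [1, 2, 0, 4, 3, 4, 1, 0, 3, 4, 3, 2, 1, 0]),
  (1, [4, 3, 2, 3, 4, 2, 3, 0, 1, 0, 2, 0, 1, 0]),
  (1, [3, 4, 3, 2, 0, 1, 0, 3, 4, 3, 2, 0, 1, 0]),
  (2, [4, 0, 2, 3, 2, 1, 0, 4, 0, 2, 3, 2, 1, 0]),
  (2, [1, 4, 0, 3, 2, 3, 1, 0, 4, 2, 3, 2, 1, 0]),
  ((-2), [1, 4, 2, 3, 2, 0, 1, 0, 4, 2, 3, 2, 1, 0]),
  (1, [3, 4, 3, 1, 2, 1, 0, 3, 4, 3, 1, 2, 1, 0]),
  (2, [2, 0, 1, 4, 3, 4, 2, 0, 3, 4, 3, 2, 1, 0]),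
  (2, [2, 0, 4, 3, 4, 1, 2, 0, 3, 4, 3, 2, 1, 0]),
  (2, [4, 0, 3, 1, 2, 1, 0, 4, 0, 3, 1, 2, 1, 0])]

/-- sum of the 12 words -/
noncomputable def P0 : T := ofL P0L

/-- the element `P` -/
noncomputable def P : T := a4 (a3 (a2 (a1 P0)))

/-- symmetrisation steps over the permutations of `1..4` -/
noncomputable def b1 (t : T) : T := add t (r12 t)
/-- step -/
noncomputable def b2 (t : T) : T := add t (add (r13 t) (r23 t))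
/-- step -/
noncomputable def b3 (t : T) : T := add t (add (r14 t) (add (r24 t) (r34 t)))

/-- the 2 words of `A` -/
def A0L : List (ℤ × List ℕ) := [((-1), [3, 4, 3, 2, 1, 0, 1, 3, 4, 3, 2, 0, 1]),
  (1, [2, 3, 4, 3, 1, 0, 1, 3, 4, 3, 2, 0, 1])]

/-- sum of the 2 words -/
noncomputable def A0 : T := ofL A0L

/-- `Λ_{05}` -/
noncomputable def A : T := b3 (b2 (b1 A0))

/-- symmetrisation steps over the permutations of `2..4` -/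
noncomputable def d1 (t : T) : T := add t (r23 t)
/-- step -/
noncomputable def d2 (t : T) : T := add t (add (r24 t) (r34 t))
/-- antisymmetrisation -/
noncomputable def d3 (t : T) : T := sub t (r01 t)

/-- the 25 words of `B` -/
def B0L : List (ℤ × List ℕ) := [(1, [4, 0, 2, 3, 1, 4, 0, 4, 1, 3, 2, 1, 0]),
  (1, [0, 3, 4, 3, 2, 1, 3, 4, 3, 2, 1, 2, 0]),
  ((-1), [0, 4, 1, 4, 2, 3, 2, 1, 4, 0, 2, 3, 2]),
  (1, [1, 3, 4, 3, 1, 2, 0, 3, 4, 3, 1, 0, 2]),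
  (2, [3, 0, 4, 1, 2, 3, 2, 4, 1, 4, 0, 3, 2]),
  ((-1), [3, 1, 2, 4, 3, 0, 3, 4, 3, 1, 3, 2, 0]),
  ((-1), [3, 4, 0, 2, 1, 0, 4, 3, 0, 2, 1, 2, 0]),
  ((-1), [2, 3, 4, 3, 1, 2, 0, 3, 4, 3, 1, 2, 0]),
  (1, [1, 2, 4, 1, 0, 3, 4, 3, 1, 4, 3, 2, 0]),
  ((-1), [4, 1, 2, 3, 2, 0, 1, 4, 0, 2, 3, 2, 0]),
  ((-1), [4, 1, 4, 2, 3, 2, 0, 1, 4, 2, 3, 2, 0]),
  ((-1), [2, 0, 4, 1, 3, 0, 3, 4, 1, 4, 0, 3, 2]),
  (1, [0, 4, 1, 2, 3, 2, 4, 1, 4, 2, 3, 2, 0]),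
  (1, [1, 2, 0, 3, 4, 3, 1, 2, 0, 3, 4, 3, 2]),
  (1, [2, 1, 0, 3, 4, 3, 1, 0, 3, 4, 3, 0, 2]),
  (1, [4, 1, 3, 2, 0, 2, 1, 4, 2, 1, 3, 0, 2]),
  (1, [1, 2, 4, 3, 0, 3, 4, 3, 1, 0, 3, 2, 0]),
  ((-2), [4, 2, 0, 3, 1, 2, 4, 2, 3, 1, 3, 0, 2]),
  ((-1), [4, 0, 3, 1, 0, 4, 2, 0, 3, 1, 3, 0, 2]),
  (1, [4, 1, 4, 2, 3, 2, 0, 1, 4, 0, 2, 3, 2]),
  ((-1), [0, 4, 1, 0, 2, 3, 0, 4, 1, 4, 0, 3, 2]),
  (1, [1, 3, 2, 0, 2, 4, 2, 1, 2, 4, 3, 0, 2]),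
  ((-1), [2, 4, 0, 3, 1, 4, 0, 4, 3, 1, 3, 0, 2]),
  (1, [0, 3, 4, 1, 2, 0, 2, 1, 4, 3, 1, 0, 2]),
  ((-1), [3, 4, 3, 0, 2, 1, 3, 4, 3, 2, 1, 2, 0])]

/-- sum of the 25 words -/
noncomputable def B0 : T := ofL B0L

/-- `Λ_{01}` -/
noncomputable def B : T := d3 (d2 (d1 B0))

/-- `D_{05} Λ_{05}` -/
noncomputable def Z1 : T := dT A .p05
/-- `D_{01} Λ_{25} - D_{25} Λ_{01}` -/
noncomputable def Z3 : T := sub (dT (r02 A) .p01) (dT B .p25)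
/-- `D_{01} Λ_{15} + D_{15} Λ_{50} + D_{50} Λ_{01}` -/
noncomputable def Z5 : T := add (sub (dT (r01 A) .p01) (dT A .p15)) (dT B .m05)

end Pool.Agent.FKT
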