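import Pool.Agent.FKT.Data
import Pool.Agent.FKC.Span

/-! The element of the Fomin-Kirillov algebra `E (Fin 6)` given by a trie. -/

namespace Pool.Agent.FKT

open Pool.Agent.H71.FK
open Equiv (swap)

/-- `X ↦ (y 5)·X · x_{y5}` -/
noncomputable def tw (y : Fin 6) : E (Fin 6) →ₗ[ℚ] E (Fin 6) :=
  (LinearMap.mulRight ℚ (x y 5)).comp (act (swap y 5)).toLinearMap

theorem tw_apply (y : Fin 6) (X : E (Fin 6)) : tw y X = act (swap y 5) X * x y 5 := rfl

theorem D_tw (a b y : Fin 6) (X : E (Fin 6)) :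
    D a b (tw y X) = del a b y 5 • X + tw y (D (swap y 5 a) (swap y 5 b) X) := by
  have e : D a b (act (swap y 5) X) = act (swap y 5) (D (swap y 5 a) (swap y 5 b) X) := by
    rw [act_D, Equiv.swap_apply_self, Equiv.swap_apply_self]
  rw [tw_apply, D_mul, D_x, e, tw_apply, add_comm]
  congr 1
  rw [mul_smul_comm, mul_one]
  rcases del_cases a b y 5 with h | ⟨h1, h2⟩ | ⟨h1, h2⟩
  · rw [h, zero_smul, zero_smul]
  · subst h1; subst h2
    rw [act_act, Equiv.swap_mul_self]; simp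
  · subst h1; subst h2
    rw [act_act, Equiv.swap_comm, Equiv.swap_mul_self]; simp

theorem act_tw (g : Equiv.Perm (Fin 6)) (hg : g 5 = 5) (y : Fin 6) (X : E (Fin 6)) :
    act g (tw y X) = tw (g y) (act g X) := by
  rw [tw_apply, tw_apply, map_mul, act_x, hg, act_act, act_act, Equiv.mul_swap_eq_swap_mul, hg]

/-- the element given by a trie -/
noncomputable def ev : T → E (Fin 6)
  | .z => 0
  | .l c => (c : ℚ) • 1
  | .n t0 t1 t2 t3 t4 => tw 0 (ev t0) + tw 1 (ev t1) + tw 2 (ev t2) + tw 3 (ev t3) + tw 4 (ev t4)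

/-- all words of the trie have length `k` -/
def WF : T → ℕ → Prop
  | .z, _ => True
  | .l _, k => k = 0
  | .n t0 t1 t2 t3 t4, k => ∃ j, k = j + 1 ∧ WF t0 j ∧ WF t1 j ∧ WF t2 j ∧ WF t3 j ∧ WF t4 j

open T

@[simp] theorem wf_z (k : ℕ) : WF z k := trivial

theorem wf_n {t0 t1 t2 t3 t4 : T} {k : ℕ} : WF (n t0 t1 t2 t3 t4) (k + 1) ↔
    WF t0 k ∧ WF t1 k ∧ WF t2 k ∧ WF t3 k ∧ WF t4 k := by
  constructor
  · rintro ⟨j, hj, h⟩
    obtain rfl : k = j := by omega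
    exact h
  · intro h; exact ⟨k, rfl, h⟩

theorem not_wf_n {t0 t1 t2 t3 t4 : T} : ¬ WF (n t0 t1 t2 t3 t4) 0 := by
  rintro ⟨j, hj, _⟩; omega

theorem not_wf_l {c : ℤ} {k : ℕ} : ¬ WF (l c) (k + 1) := by
  intro h; simp only [WF] at h; omega

/-! ### nodes -/

theorem ev_mk4 (t4 : T) : ev (mk4 t4) = ev (n z z z z t4) := by
  cases t4 with
  | z => simp [mk4, ev]
  | l c => rfl
  | n => rfl

theorem ev_mk3 (t3 t4 : T) : ev (mk3 t3 t4) = ev (n z z z t3 t4) := by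
  cases t3 with
  | z => exact ev_mk4 t4
  | l c => rfl
  | n => rfl

theorem ev_mk2 (t2 t3 t4 : T) : ev (mk2 t2 t3 t4) = ev (n z z t2 t3 t4) := by
  cases t2 with
  | z => exact ev_mk3 t3 t4
  | l c => rfl
  | n => rfl

theorem ev_mk1 (t1 t2 t3 t4 : T) : ev (mk1 t1 t2 t3 t4) = ev (n z t1 t2 t3 t4) := by
  cases t1 with
  | z => exact ev_mk2 t2 t3 t4
  | l c => rfl
  | n => rfl

theorem ev_mk (t0 t1 t2 t3 t4 : T) : ev (mk t0 t1 t2 t3 t4) = ev (n t0 t1 t2 t3 t4) := by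
  cases t0 with
  | z => exact ev_mk1 t1 t2 t3 t4
  | l c => rfl
  | n => rfl

theorem wf_mk4 {t4 : T} {k : ℕ} (h4 : WF t4 k) : WF (mk4 t4) (k + 1) := by
  cases t4 with
  | z => exact wf_z _
  | l c => exact wf_n.2 ⟨wf_z _, wf_z _, wf_z _, wf_z _, h4⟩
  | n => exact wf_n.2 ⟨wf_z _, wf_z _, wf_z _, wf_z _, h4⟩

theorem wf_mk3 {t3 t4 : T} {k : ℕ} (h3 : WF t3 k) (h4 : WF t4 k) : WF (mk3 t3 t4) (k + 1) := by
  cases t3 with
  | z => exact wf_mk4 h4
  | l c => exact wf_n.2 ⟨wf_z _, wf_z _, wf_z _, h3, h4⟩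
  | n => exact wf_n.2 ⟨wf_z _, wf_z _, wf_z _, h3, h4⟩

theorem wf_mk2 {t2 t3 t4 : T} {k : ℕ} (h2 : WF t2 k) (h3 : WF t3 k) (h4 : WF t4 k) :
    WF (mk2 t2 t3 t4) (k + 1) := by
  cases t2 with
  | z => exact wf_mk3 h3 h4
  | l c => exact wf_n.2 ⟨wf_z _, wf_z _, h2, h3, h4⟩
  | n => exact wf_n.2 ⟨wf_z _, wf_z _, h2, h3, h4⟩

theorem wf_mk1 {t1 t2 t3 t4 : T} {k : ℕ} (h1 : WF t1 k) (h2 : WF t2 k) (h3 : WF t3 k)
    (h4 : WF t4 k) : WF (mk1 t1 t2 t3 t4) (k + 1) := by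
  cases t1 with
  | z => exact wf_mk2 h2 h3 h4
  | l c => exact wf_n.2 ⟨wf_z _, h1, h2, h3, h4⟩
  | n => exact wf_n.2 ⟨wf_z _, h1, h2, h3, h4⟩

theorem wf_mk {t0 t1 t2 t3 t4 : T} {k : ℕ} (h0 : WF t0 k) (h1 : WF t1 k) (h2 : WF t2 k)
    (h3 : WF t3 k) (h4 : WF t4 k) : WF (mk t0 t1 t2 t3 t4) (k + 1) := by
  cases t0 with
  | z => exact wf_mk1 h1 h2 h3 h4
  | l c => exact wf_n.2 ⟨h0, h1, h2, h3, h4⟩
  | n => exact wf_n.2 ⟨h0, h1, h2, h3, h4⟩

theorem mk_z : mk z z z z z = z := rfl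

/-! ### linear structure -/

theorem ev_lz (c : ℤ) : ev (lz c) = (c : ℚ) • (1 : E (Fin 6)) := by
  cases c with
  | ofNat k =>
    cases k with
    | zero => simp [lz, ev]
    | succ k => rfl
  | negSucc k => rfl

theorem wf_lz (c : ℤ) : WF (lz c) 0 := by
  cases c with
  | ofNat k =>
    cases k with
    | zero => exact wf_z _
    | succ k => exact rfl
  | negSucc k => exact rfl

theorem ev_neg (t : T) : ev (neg t) = - ev t := by
  induction t with
  | z => simp [neg, ev]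
  | l c => simp [neg, ev]
  | n t0 t1 t2 t3 t4 h0 h1 h2 h3 h4 =>
    change tw 0 (ev (neg t0)) + tw 1 (ev (neg t1)) + tw 2 (ev (neg t2)) + tw 3 (ev (neg t3)) +
      tw 4 (ev (neg t4)) = _
    rw [h0, h1, h2, h3, h4]
    simp only [ev, map_neg]; abel

theorem wf_neg {t : T} {k : ℕ} (h : WF t k) : WF (neg t) k := by
  induction t generalizing k with
  | z => exact wf_z _
  | l c => exact h
  | n t0 t1 t2 t3 t4 h0 h1 h2 h3 h4 =>
    obtain ⟨j, rfl, w0, w1, w2, w3, w4⟩ := h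
    exact wf_n.2 ⟨h0 w0, h1 w1, h2 w2, h3 w3, h4 w4⟩

theorem add_spec (s t : T) (k : ℕ) (hs : WF s k) (ht : WF t k) :
    ev (add s t) = ev s + ev t ∧ WF (add s t) k := by
  induction s generalizing t k with
  | z => exact ⟨by change ev t = _; simp [ev], ht⟩
  | l c =>
    obtain rfl : k = 0 := hs
    cases t with
    | z => exact ⟨by change ev (l c) = _; simp [ev], rfl⟩
    | l d =>
      refine ⟨?_, wf_lz _⟩
      change ev (lz (c + d)) = _
      rw [ev_lz]; simp [ev, add_smul]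
    | n => exact absurd ht not_wf_n
  | n a0 a1 a2 a3 a4 h0 h1 h2 h3 h4 =>
    obtain ⟨j, rfl, w0, w1, w2, w3, w4⟩ := hs
    cases t with
    | z =>
      refine ⟨?_, wf_n.2 ⟨w0, w1, w2, w3, w4⟩⟩
      change ev (n a0 a1 a2 a3 a4) = _; simp [ev]
    | l d => exact absurd ht not_wf_l
    | n b0 b1 b2 b3 b4 =>
      obtain ⟨v0, v1, v2, v3, v4⟩ := wf_n.1 ht
      refine ⟨?_, wf_mk (h0 _ _ w0 v0).2 (h1 _ _ w1 v1).2 (h2 _ _ w2 v2).2 (h3 _ _ w3 v3).2
        (h4 _ _ w4 v4).2⟩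
      change ev (mk (add a0 b0) (add a1 b1) (add a2 b2) (add a3 b3) (add a4 b4)) = _
      rw [ev_mk]
      simp only [ev]
      rw [(h0 _ _ w0 v0).1, (h1 _ _ w1 v1).1, (h2 _ _ w2 v2).1, (h3 _ _ w3 v3).1,
        (h4 _ _ w4 v4).1]
      simp only [map_add]; abel

theorem sub_spec (s t : T) (k : ℕ) (hs : WF s k) (ht : WF t k) :
    ev (sub s t) = ev s - ev t ∧ WF (sub s t) k := by
  induction s generalizing t k with
  | z => exact ⟨by change ev (neg t) = _; rw [ev_neg]; simp [ev], wf_neg ht⟩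
  | l c =>
    obtain rfl : k = 0 := hs
    cases t with
    | z => exact ⟨by change ev (l c) = _; simp [ev], rfl⟩
    | l d =>
      refine ⟨?_, wf_lz _⟩
      change ev (lz (c - d)) = _
      rw [ev_lz]; simp [ev, sub_smul]
    | n => exact absurd ht not_wf_n
  | n a0 a1 a2 a3 a4 h0 h1 h2 h3 h4 =>
    obtain ⟨j, rfl, w0, w1, w2, w3, w4⟩ := hs
    cases t with
    | z =>
      refine ⟨?_, wf_n.2 ⟨w0, w1, w2, w3, w4⟩⟩
      change ev (n a0 a1 a2 a3 a4) = _; simp [ev]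
    | l d => exact absurd ht not_wf_l
    | n b0 b1 b2 b3 b4 =>
      obtain ⟨v0, v1, v2, v3, v4⟩ := wf_n.1 ht
      refine ⟨?_, wf_mk (h0 _ _ w0 v0).2 (h1 _ _ w1 v1).2 (h2 _ _ w2 v2).2 (h3 _ _ w3 v3).2
        (h4 _ _ w4 v4).2⟩
      change ev (mk (sub a0 b0) (sub a1 b1) (sub a2 b2) (sub a3 b3) (sub a4 b4)) = _
      rw [ev_mk]
      simp only [ev]
      rw [(h0 _ _ w0 v0).1, (h1 _ _ w1 v1).1, (h2 _ _ w2 v2).1, (h3 _ _ w3 v3).1,
        (h4 _ _ w4 v4).1]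
      simp only [map_sub]; abel

/-! ### derivations -/

/-- first element of a pair -/
def fa : S → Fin 6
  | .p01 | .p02 | .p03 | .p04 | .p05 => 0
  | .m01 | .p12 | .p13 | .p14 | .p15 => 1
  | .m02 | .m12 | .p23 | .p24 | .p25 => 2
  | .m03 | .m13 | .m23 | .p34 | .p35 => 3
  | .m04 | .m14 | .m24 | .m34 | .p45 => 4
  | .m05 | .m15 | .m25 | .m35 | .m45 => 5

/-- second element of a pair -/
def fb : S → Fin 6
  | .m01 | .m02 | .m03 | .m04 | .m05 => 0
  | .p01 | .m12 | .m13 | .m14 | .m15 => 1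
  | .p02 | .p12 | .m23 | .m24 | .m25 => 2
  | .p03 | .p13 | .p23 | .m34 | .m35 => 3
  | .p04 | .p14 | .p24 | .p34 | .m45 => 4
  | .p05 | .p15 | .p25 | .p35 | .p45 => 5

theorem D_node (a b : Fin 6) (t0 t1 t2 t3 t4 : T) : D a b (ev (n t0 t1 t2 t3 t4)) =
    (del a b 0 5 • ev t0 + tw 0 (D (swap 0 5 a) (swap 0 5 b) (ev t0))) +
    (del a b 1 5 • ev t1 + tw 1 (D (swap 1 5 a) (swap 1 5 b) (ev t1))) +
    (del a b 2 5 • ev t2 + tw 2 (D (swap 2 5 a) (swap 2 5 b) (ev t2))) +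
    (del a b 3 5 • ev t3 + tw 3 (D (swap 3 5 a) (swap 3 5 b) (ev t3))) +
    (del a b 4 5 • ev t4 + tw 4 (D (swap 4 5 a) (swap 4 5 b) (ev t4))) := by
  simp only [ev, map_add, D_tw]

theorem dT_spec (t : T) (k : ℕ) (h : WF t k) (s : S) :
    ev (dT t s) = D (fa s) (fb s) (ev t) ∧ WF (dT t s) (k - 1) ∧ (k = 0 → dT t s = z) := by
  induction t generalizing k s with
  | z => exact ⟨by change ev z = _; simp [ev], wf_z _, fun _ => rfl⟩
  | l c => exact ⟨by change ev z = _; simp [ev], wf_z _, fun _ => rfl⟩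
  | n t0 t1 t2 t3 t4 h0 h1 h2 h3 h4 =>
    obtain ⟨j, rfl, w0, w1, w2, w3, w4⟩ := h
    have hm : ∀ s0 s1 s2 s3 s4 : S, WF (mk (dT t0 s0) (dT t1 s1) (dT t2 s2) (dT t3 s3)
        (dT t4 s4)) j := by
      intro s0 s1 s2 s3 s4
      cases j with
      | zero =>
        rw [(h0 _ w0 s0).2.2 rfl, (h1 _ w1 s1).2.2 rfl, (h2 _ w2 s2).2.2 rfl,
          (h3 _ w3 s3).2.2 rfl, (h4 _ w4 s4).2.2 rfl]
        exact wf_z _
      | succ j =>
        exact wf_mk (h0 _ w0 s0).2.1 (h1 _ w1 s1).2.1 (h2 _ w2 s2).2.1 (h3 _ w3 s3).2.1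
          (h4 _ w4 s4).2.1
    have he : ∀ s0 s1 s2 s3 s4 : S, ev (mk (dT t0 s0) (dT t1 s1) (dT t2 s2) (dT t3 s3)
        (dT t4 s4)) = tw 0 (D (fa s0) (fb s0) (ev t0)) + tw 1 (D (fa s1) (fb s1) (ev t1)) +
        tw 2 (D (fa s2) (fb s2) (ev t2)) + tw 3 (D (fa s3) (fb s3) (ev t3)) +
        tw 4 (D (fa s4) (fb s4) (ev t4)) := by
      intro s0 s1 s2 s3 s4
      rw [ev_mk]
      simp only [ev]
      rw [(h0 _ w0 s0).1, (h1 _ w1 s1).1, (h2 _ w2 s2).1, (h3 _ w3 s3).1, (h4 _ w4 s4).1]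
    have key : ev (dT (n t0 t1 t2 t3 t4) s) = D (fa s) (fb s) (ev (n t0 t1 t2 t3 t4)) ∧
        WF (dT (n t0 t1 t2 t3 t4) s) j := by
      rw [D_node]
      cases s
      case p05 =>
        have := add_spec t0 _ j w0 (hm .m05 .p01 .p02 .p03 .p04)
        refine ⟨this.1.trans ?_, this.2⟩
        rw [he]; simp [fa, fb, del, Equiv.swap_apply_def]; abel
      case p15 =>
        have := add_spec t1 _ j w1 (hm .m01 .m15 .p12 .p13 .p14)
        refine ⟨this.1.trans ?_, this.2⟩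
        rw [he]; simp [fa, fb, del, Equiv.swap_apply_def]; abel
      case p25 =>
        have := add_spec t2 _ j w2 (hm .m02 .m12 .m25 .p23 .p24)
        refine ⟨this.1.trans ?_, this.2⟩
        rw [he]; simp [fa, fb, del, Equiv.swap_apply_def]; abel
      case p35 =>
        have := add_spec t3 _ j w3 (hm .m03 .m13 .m23 .m35 .p34)
        refine ⟨this.1.trans ?_, this.2⟩
        rw [he]; simp [fa, fb, del, Equiv.swap_apply_def]; abel
      case p45 =>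
        have := add_spec t4 _ j w4 (hm .m04 .m14 .m24 .m34 .m45)
        refine ⟨this.1.trans ?_, this.2⟩
        rw [he]; simp [fa, fb, del, Equiv.swap_apply_def]; abel
      case m05 =>
        have := sub_spec _ t0 j (hm .p05 .m01 .m02 .m03 .m04) w0
        refine ⟨this.1.trans ?_, this.2⟩
        rw [he]; simp [fa, fb, del, Equiv.swap_apply_def]; abel
      case m15 =>
        have := sub_spec _ t1 j (hm .p01 .p15 .m12 .m13 .m14) w1
        refine ⟨this.1.trans ?_, this.2⟩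
        rw [he]; simp [fa, fb, del, Equiv.swap_apply_def]; abel
      case m25 =>
        have := sub_spec _ t2 j (hm .p02 .p12 .p25 .m23 .m24) w2
        refine ⟨this.1.trans ?_, this.2⟩
        rw [he]; simp [fa, fb, del, Equiv.swap_apply_def]; abel
      case m35 =>
        have := sub_spec _ t3 j (hm .p03 .p13 .p23 .p35 .m34) w3
        refine ⟨this.1.trans ?_, this.2⟩
        rw [he]; simp [fa, fb, del, Equiv.swap_apply_def]; abel
      case m45 =>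
        have := sub_spec _ t4 j (hm .p04 .p14 .p24 .p34 .p45) w4
        refine ⟨this.1.trans ?_, this.2⟩
        rw [he]; simp [fa, fb, del, Equiv.swap_apply_def]; abel
      all_goals
        refine ⟨(he _ _ _ _ _).trans ?_, hm _ _ _ _ _⟩
        simp [fa, fb, del, Equiv.swap_apply_def]
    exact ⟨key.1, key.2, fun h => by omega⟩

end Pool.Agent.FKT
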