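import Pool.Agent.FKT.Zero

/-! Invariance under transpositions, in terms of `Inv`. -/

namespace Pool.Agent.FKT

open Pool.Agent.H71.FK Pool.Agent.FKC
open Equiv (swap)

theorem swap_inv {X : E (Fin 6)} {i j : Fin 6} (h : act (swap i j) X = X) :
    act (swap j i) X = X := by rw [Equiv.swap_comm]; exact h

theorem swap_self_inv (X : E (Fin 6)) (i : Fin 6) : act (swap i i) X = X := by
  rw [Equiv.swap_self]
  change act 1 X = X
  rw [act_one]; rfl

theorem inv4_of (X : E (Fin 6)) : Inv 4 X := by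
  intro i j hi hj hi5 hj5
  have h1 : i = 4 := by
    have := i.isLt
    have h : i.val ≠ 5 := fun h => hi5 (Fin.ext h)
    exact Fin.ext (by change i.val = 4; omega)
  have h2 : j = 4 := by
    have := j.isLt
    have h : j.val ≠ 5 := fun h => hj5 (Fin.ext h)
    exact Fin.ext (by change j.val = 4; omega)
  rw [h1, h2]; exact swap_self_inv X 4

/-- one more letter -/
theorem inv_step {m : ℕ} {X : E (Fin 6)} (k : Fin 6) (hk : k.val = m) (h : Inv (m + 1) X)
    (hs : ∀ j : Fin 6, m + 1 ≤ j.val → j ≠ 5 → act (swap k j) X = X) : Inv m X := by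
  intro i j hi hj hi5 hj5
  by_cases h1 : i = k
  · by_cases h2 : j = k
    · rw [h1, h2]; exact swap_self_inv X k
    · rw [h1]
      refine hs j ?_ hj5
      have : j.val ≠ k.val := fun e => h2 (Fin.ext e)
      omega
  · have e1 : i.val ≠ k.val := fun e => h1 (Fin.ext e)
    by_cases h2 : j = k
    · rw [h2]
      exact swap_inv (hs i (by omega) hi5)
    · have e2 : j.val ≠ k.val := fun e => h2 (Fin.ext e)
      exact h i j (by omega) (by omega) hi5 hj5

theorem inv3_of {X : E (Fin 6)} (e34 : act (swap 3 4) X = X) : Inv 3 X := by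
  refine inv_step 3 rfl (inv4_of X) fun j hj hj5 => ?_
  have h2 : j = 4 := by
    have := j.isLt
    have h : j.val ≠ 5 := fun h => hj5 (Fin.ext h)
    exact Fin.ext (by change j.val = 4; omega)
  rw [h2]; exact e34

theorem inv2_of {X : E (Fin 6)} (e23 : act (swap 2 3) X = X) (e24 : act (swap 2 4) X = X)
    (e34 : act (swap 3 4) X = X) : Inv 2 X := by
  refine inv_step 2 rfl (inv3_of e34) fun j hj hj5 => ?_
  have := j.isLt
  have h : j.val ≠ 5 := fun h => hj5 (Fin.ext h)
  have h2 : j = 3 ∨ j = 4 := by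
    rcases (show j.val = 3 ∨ j.val = 4 by omega) with e | e
    · exact Or.inl (Fin.ext e)
    · exact Or.inr (Fin.ext e)
  rcases h2 with rfl | rfl
  · exact e23
  · exact e24

theorem inv1_of {X : E (Fin 6)} (e12 : act (swap 1 2) X = X) (e13 : act (swap 1 3) X = X)
    (e14 : act (swap 1 4) X = X) (e23 : act (swap 2 3) X = X) (e24 : act (swap 2 4) X = X)
    (e34 : act (swap 3 4) X = X) : Inv 1 X := by
  refine inv_step 1 rfl (inv2_of e23 e24 e34) fun j hj hj5 => ?_
  have := j.isLt
  have h : j.val ≠ 5 := fun h => hj5 (Fin.ext h)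
  have h2 : j = 2 ∨ j = 3 ∨ j = 4 := by
    rcases (show j.val = 2 ∨ j.val = 3 ∨ j.val = 4 by omega) with e | e | e
    · exact Or.inl (Fin.ext e)
    · exact Or.inr (Or.inl (Fin.ext e))
    · exact Or.inr (Or.inr (Fin.ext e))
  rcases h2 with rfl | rfl | rfl
  · exact e12
  · exact e13
  · exact e14

theorem inv0_of {X : E (Fin 6)} (e01 : act (swap 0 1) X = X) (e02 : act (swap 0 2) X = X)
    (e03 : act (swap 0 3) X = X) (e04 : act (swap 0 4) X = X) (h1 : Inv 1 X) : Inv 0 X := by
  refine inv_step 0 rfl h1 fun j hj hj5 => ?_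
  have := j.isLt
  have h : j.val ≠ 5 := fun h => hj5 (Fin.ext h)
  have h2 : j = 1 ∨ j = 2 ∨ j = 3 ∨ j = 4 := by
    rcases (show j.val = 1 ∨ j.val = 2 ∨ j.val = 3 ∨ j.val = 4 by omega) with e | e | e | e
    · exact Or.inl (Fin.ext e)
    · exact Or.inr (Or.inl (Fin.ext e))
    · exact Or.inr (Or.inr (Or.inl (Fin.ext e)))
    · exact Or.inr (Or.inr (Or.inr (Fin.ext e)))
  rcases h2 with rfl | rfl | rfl | rfl
  · exact e01
  · exact e02
  · exact e03
  · exact e04

theorem val_pos_of_ne_zero {i : Fin 6} (h : i ≠ 0) : 1 ≤ i.val := by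
  have : i.val ≠ 0 := fun e => h (Fin.ext e)
  omega

theorem val_two_le {i : Fin 6} (h : i ≠ 0) (h' : i ≠ 1) : 2 ≤ i.val := by
  have : i.val ≠ 0 := fun e => h (Fin.ext e)
  have : i.val ≠ 1 := fun e => h' (Fin.ext e)
  omega

end Pool.Agent.FKT
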