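import Pool.Agent.FKT.ChkP
import Pool.Agent.FKT.Chk3
import Pool.Agent.FKT.Chk5
import Pool.Agent.FKT.ChkI
import Pool.Agent.FKT.ChkV
import Pool.Agent.FKT.Sym
import Pool.Agent.FKC.Family
import Pool.Agent.FKC.Up

/-! The form on `E (Fin 6)` is degenerate in degree 14. -/

namespace Pool.Agent.FKT

open Pool.Agent.H71.FK Pool.Agent.FKC
open Equiv (swap)
open T

theorem a1_spec (t : T) (k : ℕ) (h : WF t k) :
    ev (a1 t) = ev t + act (swap 0 1) (ev t) ∧ WF (a1 t) k := by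
  have e := add_spec t (r01 t) k h (wf_r01 h)
  rw [ev_r01] at e; exact e

theorem a2_spec (t : T) (k : ℕ) (h : WF t k) :
    ev (a2 t) = ev t + (act (swap 0 2) (ev t) + act (swap 1 2) (ev t)) ∧ WF (a2 t) k := by
  have e1 := add_spec (r02 t) (r12 t) k (wf_r02 h) (wf_r12 h)
  have e := add_spec t _ k h e1.2
  rw [e1.1, ev_r02, ev_r12] at e; exact e

theorem a3_spec (t : T) (k : ℕ) (h : WF t k) :
    ev (a3 t) = ev t + (act (swap 0 3) (ev t) + (act (swap 1 3) (ev t) + act (swap 2 3) (ev t))) ∧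
      WF (a3 t) k := by
  have e2 := add_spec (r13 t) (r23 t) k (wf_r13 h) (wf_r23 h)
  have e1 := add_spec (r03 t) _ k (wf_r03 h) e2.2
  have e := add_spec t _ k h e1.2
  rw [e1.1, e2.1, ev_r03, ev_r13, ev_r23] at e; exact e

theorem a4_spec (t : T) (k : ℕ) (h : WF t k) :
    ev (a4 t) = ev t + (act (swap 0 4) (ev t) + (act (swap 1 4) (ev t) +
      (act (swap 2 4) (ev t) + act (swap 3 4) (ev t)))) ∧ WF (a4 t) k := by
  have e3 := add_spec (r24 t) (r34 t) k (wf_r24 h) (wf_r34 h)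
  have e2 := add_spec (r14 t) _ k (wf_r14 h) e3.2
  have e1 := add_spec (r04 t) _ k (wf_r04 h) e2.2
  have e := add_spec t _ k h e1.2
  rw [e1.1, e2.1, e3.1, ev_r04, ev_r14, ev_r24, ev_r34] at e; exact e

theorem wf_A : WF A 13 := by
  have h0 : WF A0 13 := (ofL_spec 13 A0L (by decide)).2
  have h1 : WF (b1 A0) 13 := (add_spec _ _ 13 h0 (wf_r12 h0)).2
  have h2 : WF (b2 (b1 A0)) 13 :=
    (add_spec _ _ 13 h1 (add_spec _ _ 13 (wf_r13 h1) (wf_r23 h1)).2).2
  exact (add_spec _ _ 13 h2 (add_spec _ _ 13 (wf_r14 h2)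
    (add_spec _ _ 13 (wf_r24 h2) (wf_r34 h2)).2).2).2

theorem wf_B : WF B 13 := by
  have h0 : WF B0 13 := (ofL_spec 13 B0L (by decide)).2
  have h1 : WF (d1 B0) 13 := (add_spec _ _ 13 h0 (wf_r23 h0)).2
  have h2 : WF (d2 (d1 B0)) 13 :=
    (add_spec _ _ 13 h1 (add_spec _ _ 13 (wf_r24 h1) (wf_r34 h1)).2).2
  exact (sub_spec _ _ 13 h2 (wf_r01 h2)).2

theorem wf_P0 : WF P0 14 := (ofL_spec 14 P0L (by decide)).2

theorem wf_P : WF P 14 :=
  (a4_spec _ _ (a3_spec _ _ (a2_spec _ _ (a1_spec _ _ wf_P0).2).2).2).2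

/-- a difference which is `z` -/
theorem eq_of_sub {s t : T} {k : ℕ} (hs : WF s k) (ht : WF t k) (h : isZ (sub s t) = true) :
    ev s = ev t := by
  have e := (sub_spec s t k hs ht).1
  rw [isZ_eq h] at e
  exact (sub_eq_zero.1 e.symm)

theorem eq_neg_of_add {s t : T} {k : ℕ} (hs : WF s k) (ht : WF t k) (h : isZ (add s t) = true) :
    ev s = - ev t := by
  have e := (add_spec s t k hs ht).1
  rw [isZ_eq h] at e
  exact (eq_neg_of_add_eq_zero_left e.symm)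

theorem inv_A (i j : Fin 6) (hi : i ≠ 0) (hi5 : i ≠ 5) (hj : j ≠ 0) (hj5 : j ≠ 5) :
    act (swap i j) (ev A) = ev A := by
  have h := chkA
  simp only [Bool.and_eq_true] at h
  obtain ⟨h12, h13, h14, h23, h24, h34⟩ := h
  have hI : Inv 1 (ev A) := inv1_of
    ((ev_r12 A).symm.trans (eq_of_sub (wf_r12 wf_A) wf_A h12))
    ((ev_r13 A).symm.trans (eq_of_sub (wf_r13 wf_A) wf_A h13))
    ((ev_r14 A).symm.trans (eq_of_sub (wf_r14 wf_A) wf_A h14))
    ((ev_r23 A).symm.trans (eq_of_sub (wf_r23 wf_A) wf_A h23))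
    ((ev_r24 A).symm.trans (eq_of_sub (wf_r24 wf_A) wf_A h24))
    ((ev_r34 A).symm.trans (eq_of_sub (wf_r34 wf_A) wf_A h34))
  exact hI i j (val_pos_of_ne_zero hi) (val_pos_of_ne_zero hj) hi5 hj5

theorem inv_B (i j : Fin 6) (hi : i ≠ 0) (hi1 : i ≠ 1) (hi5 : i ≠ 5) (hj : j ≠ 0) (hj1 : j ≠ 1)
    (hj5 : j ≠ 5) : act (swap i j) (ev B) = ev B := by
  have h := chkB
  simp only [Bool.and_eq_true] at h
  obtain ⟨_, h23, h24, h34⟩ := h
  have hI : Inv 2 (ev B) := inv2_of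
    ((ev_r23 B).symm.trans (eq_of_sub (wf_r23 wf_B) wf_B h23))
    ((ev_r24 B).symm.trans (eq_of_sub (wf_r24 wf_B) wf_B h24))
    ((ev_r34 B).symm.trans (eq_of_sub (wf_r34 wf_B) wf_B h34))
  exact hI i j (val_two_le hi hi1) (val_two_le hj hj1) hi5 hj5

theorem anti_B : act (swap 0 1) (ev B) = - ev B := by
  have h := chkB
  simp only [Bool.and_eq_true] at h
  rw [← ev_r01]; exact eq_neg_of_add (wf_r01 wf_B) wf_B h.1

theorem inv_P : Inv 0 (ev P) := by
  have h := chkP1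
  simp only [Bool.and_eq_true] at h
  obtain ⟨h01, h02, h03, h04, h12⟩ := h
  have h := chkP2
  simp only [Bool.and_eq_true] at h
  obtain ⟨h13, h14, h23, h24, h34⟩ := h
  exact inv0_of
    ((ev_r01 P).symm.trans (eq_of_sub (wf_r01 wf_P) wf_P h01))
    ((ev_r02 P).symm.trans (eq_of_sub (wf_r02 wf_P) wf_P h02))
    ((ev_r03 P).symm.trans (eq_of_sub (wf_r03 wf_P) wf_P h03))
    ((ev_r04 P).symm.trans (eq_of_sub (wf_r04 wf_P) wf_P h04)) (inv1_of
    ((ev_r12 P).symm.trans (eq_of_sub (wf_r12 wf_P) wf_P h12))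
    ((ev_r13 P).symm.trans (eq_of_sub (wf_r13 wf_P) wf_P h13))
    ((ev_r14 P).symm.trans (eq_of_sub (wf_r14 wf_P) wf_P h14))
    ((ev_r23 P).symm.trans (eq_of_sub (wf_r23 wf_P) wf_P h23))
    ((ev_r24 P).symm.trans (eq_of_sub (wf_r24 wf_P) wf_P h24))
    ((ev_r34 P).symm.trans (eq_of_sub (wf_r34 wf_P) wf_P h34)))

/-- `P` is in the radical -/
theorem R_P : R (ev P) := zc0_sound 14 P chkP wf_P inv_P

theorem R_1 : R (D 0 5 (ev A)) := by
  have e := (dT_spec A 13 wf_A .p05).1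
  have h : dT A .p05 = z := isZ_eq chk1
  rw [h] at e
  change R (D (fa .p05) (fb .p05) (ev A))
  rw [← e]; exact R_zero

theorem R_3 : R (D 0 1 (act (swap 0 2) (ev A)) - D 2 5 (ev B)) := by
  have w1 := dT_spec (r02 A) 13 (wf_r02 wf_A) .p01
  have w2 := dT_spec B 13 wf_B .p25
  have w := sub_spec (dT (r02 A) .p01) (dT B .p25) 12 w1.2.1 w2.2.1
  have e : ev Z3 = D 0 1 (act (swap 0 2) (ev A)) - D 2 5 (ev B) := by
    refine w.1.trans ?_
    rw [w1.1, w2.1, ev_r02]; rfl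
  rw [← e]
  exact zc3_sound 12 Z3 chk3 w.2
    (inv3_of ((ev_r34 Z3).symm.trans (eq_of_sub (wf_r34 w.2) w.2 chk3i)))

theorem R_5 : R (D 0 1 (act (swap 0 1) (ev A)) - D 1 5 (ev A) + D 5 0 (ev B)) := by
  have w1 := dT_spec (r01 A) 13 (wf_r01 wf_A) .p01
  have w2 := dT_spec A 13 wf_A .p15
  have w3 := dT_spec B 13 wf_B .m05
  have w4 := sub_spec (dT (r01 A) .p01) (dT A .p15) 12 w1.2.1 w2.2.1
  have w := add_spec _ (dT B .m05) 12 w4.2 w3.2.1
  have e : ev Z5 = D 0 1 (act (swap 0 1) (ev A)) - D 1 5 (ev A) + D 5 0 (ev B) := by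
    refine w.1.trans ?_
    rw [w4.1, w1.1, w2.1, w3.1, ev_r01]; rfl
  rw [← e]
  have h := chk5i
  simp only [Bool.and_eq_true] at h
  obtain ⟨h23, h24, h34⟩ := h
  exact zc2_sound 12 Z5 chk5 w.2 (inv2_of
    ((ev_r23 Z5).symm.trans (eq_of_sub (wf_r23 w.2) w.2 h23))
    ((ev_r24 Z5).symm.trans (eq_of_sub (wf_r24 w.2) w.2 h24))
    ((ev_r34 Z5).symm.trans (eq_of_sub (wf_r34 w.2) w.2 h34)))

theorem ev_P_ne : ev P ≠ 0 := by
  have hA := ev_mem wf_A
  have hB := ev_mem wf_B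
  obtain ⟨φ, _, h2, h3⟩ := family (ev A) (ev B) SS SS_D SS_act (Kk_le _ hA) (Kk_le _ hB) SS_eps
    (fun a b => eps_Kk (D_mem a b hA)) (fun a b => eps_Kk (D_mem a b hB)) inv_A inv_B anti_B
    R_1 R_3 R_5
  have hs : ∀ (i j : Fin 6) (X : E (Fin 6)), i ≠ 5 → j ≠ 5 → φ (act (swap i j) X) = φ X :=
    fun i j X hi hj => h3 _ (Equiv.swap_apply_of_ne_of_ne hi.symm hj.symm) X
  have p1 := a1_spec _ _ wf_P0
  have p2 := a2_spec _ _ p1.2
  have p3 := a3_spec _ _ p2.2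
  have p4 := a4_spec _ _ p3.2
  have e0 : φ (ev P0) = -2 := by
    have e := (ofL_spec 14 P0L (by decide)).1
    change φ (ev (ofL P0L)) = -2
    rw [e, map_list_sum, List.map_map]
    have h := congrArg (fun c : ℤ => (c : ℚ)) chkV
    simp only [Int.cast_neg, Int.cast_ofNat] at h
    rw [← h, Int.cast_list_sum, List.map_map]
    congr 1
    apply List.map_congr_left
    intro p hp
    have hl : p.2.length = 14 := by
      have : ∀ p ∈ P0L, p.2.length = 14 := by decide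
      exact this p hp
    obtain ⟨c, w⟩ := p
    cases w with
    | nil => simp at hl
    | cons y w =>
      have hw : w.length = 13 := by simpa using hl
      have := phi_wd φ h2 c y w (by rw [hw]; exact wf_A)
      simpa using this
  have e1 : φ (ev (a1 P0)) = 2 * φ (ev P0) := by
    rw [p1.1, map_add, hs _ _ _ (by decide) (by decide)]; ring
  have e2 : φ (ev (a2 (a1 P0))) = 3 * φ (ev (a1 P0)) := by
    rw [p2.1, map_add, map_add, hs _ _ _ (by decide) (by decide),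
      hs _ _ _ (by decide) (by decide)]; ring
  have e3 : φ (ev (a3 (a2 (a1 P0)))) = 4 * φ (ev (a2 (a1 P0))) := by
    rw [p3.1, map_add, map_add, map_add, hs _ _ _ (by decide) (by decide),
      hs _ _ _ (by decide) (by decide), hs _ _ _ (by decide) (by decide)]; ring
  have e4 : φ (ev P) = 5 * φ (ev (a3 (a2 (a1 P0)))) := by
    change φ (ev (a4 (a3 (a2 (a1 P0))))) = _
    rw [p4.1, map_add, map_add, map_add, map_add, hs _ _ _ (by decide) (by decide),
      hs _ _ _ (by decide) (by decide), hs _ _ _ (by decide) (by decide),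
      hs _ _ _ (by decide) (by decide)]; ring
  intro h
  rw [h, map_zero, e3, e2, e1, e0] at e4
  norm_num at e4

/-- the form on `E (Fin 6)` is degenerate in degree 14 -/
theorem main6 : ∃ X : E (Fin 6), X ≠ 0 ∧
    X ∈ Submodule.span ℚ {m | ∃ l : List (Fin 6 × Fin 6), l.length = 14 ∧ mon l = m} ∧
    ∀ Q, form X Q = 0 :=
  ⟨ev P, ev_P_ne, Kk_span 14 (ev_mem wf_P), R_P⟩

end Pool.Agent.FKT
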