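import Pool.Agent.FKT.Ev

/-! The space of star elements. -/

namespace Pool.Agent.FKT

open Pool.Agent.H71.FK Pool.Agent.FKC
open Equiv (swap)

/-- star elements of degree `k` -/
noncomputable def Kk : ℕ → Submodule ℚ (E (Fin 6))
  | 0 => Submodule.span ℚ {1}
  | k + 1 => ⨆ y : {y : Fin 6 // y ≠ 5}, (Kk k).map (tw y.1)

theorem tw_mem {k : ℕ} {y : Fin 6} (hy : y ≠ 5) {X : E (Fin 6)} (hX : X ∈ Kk k) :
    tw y X ∈ Kk (k + 1) := by
  have h : (Kk k).map (tw y) ≤ Kk (k + 1) :=
    le_iSup (fun y : {y : Fin 6 // y ≠ 5} => (Kk k).map (tw y.1)) ⟨y, hy⟩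
  exact h (Submodule.mem_map_of_mem hX)

theorem Kk_succ_le {k : ℕ} {W : Submodule ℚ (E (Fin 6))}
    (h : ∀ y, y ≠ 5 → ∀ X ∈ Kk k, tw y X ∈ W) : Kk (k + 1) ≤ W := by
  refine iSup_le fun y => ?_
  rw [Submodule.map_le_iff_le_comap]
  intro X hX
  exact h y.1 y.2 X hX

theorem ev_mem {t : T} {k : ℕ} (h : WF t k) : ev t ∈ Kk k := by
  induction t generalizing k with
  | z => exact Submodule.zero_mem _
  | l c =>
    obtain rfl : k = 0 := h
    exact Submodule.smul_mem _ _ (Submodule.subset_span rfl)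
  | n t0 t1 t2 t3 t4 h0 h1 h2 h3 h4 =>
    obtain ⟨j, rfl, w0, w1, w2, w3, w4⟩ := h
    simp only [ev]
    exact Submodule.add_mem _ (Submodule.add_mem _ (Submodule.add_mem _ (Submodule.add_mem _
      (tw_mem (by decide) (h0 w0)) (tw_mem (by decide) (h1 w1))) (tw_mem (by decide) (h2 w2)))
      (tw_mem (by decide) (h3 w3))) (tw_mem (by decide) (h4 w4))

theorem act_mem {g : Equiv.Perm (Fin 6)} (hg : g 5 = 5) {k : ℕ} {X : E (Fin 6)} (hX : X ∈ Kk k) :
    act g X ∈ Kk k := by
  induction k generalizing X with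
  | zero =>
    obtain ⟨c, rfl⟩ := Submodule.mem_span_singleton.1 hX
    rw [map_smul, map_one]
    exact Submodule.smul_mem _ _ (Submodule.subset_span rfl)
  | succ k ih =>
    have h : Kk (k + 1) ≤ (Kk (k + 1)).comap (act g).toLinearMap := by
      apply Kk_succ_le
      intro y hy Y hY
      change act g (tw y Y) ∈ Kk (k + 1)
      rw [act_tw g hg]
      refine tw_mem ?_ (ih hY)
      intro e
      exact hy (g.injective (e.trans hg.symm))
    exact h hX

theorem D_Kk_zero (a b : Fin 6) {X : E (Fin 6)} (hX : X ∈ Kk 0) : D a b X = 0 := by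
  obtain ⟨c, rfl⟩ := Submodule.mem_span_singleton.1 hX
  rw [map_smul, D_one, smul_zero]

theorem D_mem (a b : Fin 6) {k : ℕ} {X : E (Fin 6)} (hX : X ∈ Kk (k + 1)) : D a b X ∈ Kk k := by
  induction k generalizing a b X with
  | zero =>
    have h : Kk (0 + 1) ≤ (Kk 0).comap (D a b) := by
      apply Kk_succ_le
      intro y hy Y hY
      change D a b (tw y Y) ∈ Kk 0
      rw [D_tw, D_Kk_zero _ _ hY, map_zero, add_zero]
      exact Submodule.smul_mem _ _ hY
    exact h hX
  | succ k ih =>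
    have h : Kk (k + 1 + 1) ≤ (Kk (k + 1)).comap (D a b) := by
      apply Kk_succ_le
      intro y hy Y hY
      change D a b (tw y Y) ∈ Kk (k + 1)
      rw [D_tw]
      exact Submodule.add_mem _ (Submodule.smul_mem _ _ hY) (tw_mem hy (ih _ _ hY))
    exact h hX

theorem eps_Kk {k : ℕ} {X : E (Fin 6)} (hX : X ∈ Kk (k + 1)) : eps X = 0 := by
  have h : Kk (k + 1) ≤ LinearMap.ker (eps : E (Fin 6) →ₐ[ℚ] ℚ).toLinearMap := by
    apply Kk_succ_le
    intro y hy Y hY
    rw [LinearMap.mem_ker]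
    change eps (tw y Y) = 0
    rw [tw_apply, map_mul, eps_x, mul_zero]
  exact h hX

theorem eps_D {a b : Fin 6} (ha : a ≠ 5) (hb : b ≠ 5) {k : ℕ} {X : E (Fin 6)} (hX : X ∈ Kk k) :
    eps (D a b X) = 0 := by
  match k with
  | 0 => rw [D_Kk_zero _ _ hX, map_zero]
  | 1 =>
    have h : Kk (0 + 1) ≤ LinearMap.ker ((eps : E (Fin 6) →ₐ[ℚ] ℚ).toLinearMap.comp (D a b)) := by
      apply Kk_succ_le
      intro y hy Y hY
      rw [LinearMap.mem_ker]
      change eps (D a b (tw y Y)) = 0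
      have : del a b y 5 = 0 := by
        unfold del
        rw [if_neg (fun h => hb h.2.symm), if_neg (fun h => ha h.2.symm), sub_zero]
      rw [D_tw, D_Kk_zero _ _ hY, map_zero, add_zero, this, zero_smul, map_zero]
    exact h hX
  | k + 2 => exact eps_Kk (D_mem a b hX)

/-- all star elements -/
noncomputable def SS : Submodule ℚ (E (Fin 6)) := ⨆ k, Kk k

theorem Kk_le (k : ℕ) : Kk k ≤ SS := le_iSup Kk k

theorem SS_le {W : Submodule ℚ (E (Fin 6))} (h : ∀ k, ∀ X ∈ Kk k, X ∈ W) : SS ≤ W :=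
  iSup_le fun k X hX => h k X hX

theorem SS_D (a b : Fin 6) : ∀ X ∈ SS, D a b X ∈ SS := by
  have h : SS ≤ SS.comap (D a b) := by
    apply SS_le
    intro k X hX
    change D a b X ∈ SS
    cases k with
    | zero => rw [D_Kk_zero _ _ hX]; exact Submodule.zero_mem _
    | succ k => exact Kk_le _ (D_mem a b hX)
  exact fun X hX => h hX

theorem SS_act (g : Equiv.Perm (Fin 6)) (hg : g 5 = 5) : ∀ X ∈ SS, act g X ∈ SS := by
  have h : SS ≤ SS.comap (act g).toLinearMap := by
    apply SS_le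
    intro k X hX
    exact Kk_le k (act_mem hg hX)
  exact fun X hX => h hX

theorem SS_eps (a b : Fin 6) (ha : a ≠ 5) (hb : b ≠ 5) : ∀ X ∈ SS, eps (D a b X) = 0 := by
  have h : SS ≤ LinearMap.ker ((eps : E (Fin 6) →ₐ[ℚ] ℚ).toLinearMap.comp (D a b)) := by
    apply SS_le
    intro k X hX
    rw [LinearMap.mem_ker]
    exact eps_D ha hb hX
  exact fun X hX => h hX

/-- homogeneous of degree `k` -/
theorem Kk_span (k : ℕ) : Kk k ≤ Submodule.span ℚ
    {m | ∃ l : List (Fin 6 × Fin 6), l.length = k ∧ mon l = m} := by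
  induction k with
  | zero =>
    apply Submodule.span_mono
    rintro m rfl
    exact ⟨[], rfl, mon_nil⟩
  | succ k ih =>
    apply Kk_succ_le
    intro y _ Y hY'
    have hY := ih hY'
    clear ih hY'
    induction hY using Submodule.span_induction with
    | mem m hm =>
      obtain ⟨l, hl, rfl⟩ := hm
      rw [tw_apply, act_mon]
      refine Submodule.subset_span ⟨(l.map fun p => (swap y 5 p.1, swap y 5 p.2)) ++ [(y, 5)], ?_, ?_⟩
      · simp [hl]
      · rw [mon_append]; simp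
    | zero => rw [map_zero]; exact Submodule.zero_mem _
    | add p q _ _ hp hq => rw [map_add]; exact Submodule.add_mem _ hp hq
    | smul r p _ hp => rw [map_smul]; exact Submodule.smul_mem _ _ hp

end Pool.Agent.FKT
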