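import Mathlib

/-! Tries of words in the letters `0..4` with integer coefficients; everything is written with the
recursors, so that the kernel evaluates it fast. -/

namespace Pool.Agent.FKT

/-- tries -/
inductive T : Type
  | z : T
  | l (c : ℤ) : T
  | n (t0 t1 t2 t3 t4 : T) : T

/-- ordered pairs of distinct elements of `0..5` -/
inductive S : Type
  | p01
  | p02
  | p03
  | p04
  | p05
  | m01
  | p12
  | p13
  | p14
  | p15
  | m02
  | m12
  | p23
  | p24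
  | p25
  | m03
  | m13
  | m23
  | p34
  | p35
  | m04
  | m14
  | m24
  | m34
  | p45
  | m05
  | m15
  | m25
  | m35
  | m45

namespace T

/-- leaf -/
noncomputable def lz (c : ℤ) : T :=
  Int.rec (motive := fun _ => T) (fun k => Bool.rec (l (Int.ofNat k)) z (Nat.beq k 0)) (fun k => l (Int.negSucc k)) c

noncomputable def mk4 (t4 : T) : T := T.rec (motive := fun _ => T) z (fun c => n z z z z (l c)) (fun a b c d e _ _ _ _ _ => n z z z z (n a b c d e)) t4
noncomputable def mk3 (t3 t4 : T) : T := T.rec (motive := fun _ => T → T) mk4 (fun c => n z z z (l c)) (fun a b c d e _ _ _ _ _ => n z z z (n a b c d e)) t3 t4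
noncomputable def mk2 (t2 t3 t4 : T) : T := T.rec (motive := fun _ => T → T → T) mk3 (fun c => n z z (l c)) (fun a b c d e _ _ _ _ _ => n z z (n a b c d e)) t2 t3 t4
noncomputable def mk1 (t1 t2 t3 t4 : T) : T := T.rec (motive := fun _ => T → T → T → T) mk2 (fun c => n z (l c)) (fun a b c d e _ _ _ _ _ => n z (n a b c d e)) t1 t2 t3 t4
noncomputable def mk (t0 t1 t2 t3 t4 : T) : T := T.rec (motive := fun _ => T → T → T → T → T) mk1 (fun c => n (l c)) (fun a b c d e _ _ _ _ _ => n (n a b c d e)) t0 t1 t2 t3 t4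

/-- negation -/
noncomputable def neg : T → T :=
  T.rec (motive := fun _ => T) z (fun c => l (-c)) (fun _ _ _ _ _ i0 i1 i2 i3 i4 => n i0 i1 i2 i3 i4)

/-- sum -/
noncomputable def add : T → T → T :=
  T.rec (motive := fun _ => T → T) (fun t => t)
    (fun c => T.rec (motive := fun _ => T) (l c) (fun d => lz (c + d)) (fun _ _ _ _ _ _ _ _ _ _ => l c))
    (fun a0 a1 a2 a3 a4 i0 i1 i2 i3 i4 =>
      T.rec (motive := fun _ => T) (n a0 a1 a2 a3 a4) (fun _ => n a0 a1 a2 a3 a4)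
        (fun b0 b1 b2 b3 b4 _ _ _ _ _ => mk (i0 b0) (i1 b1) (i2 b2) (i3 b3) (i4 b4)))

/-- difference -/
noncomputable def sub : T → T → T :=
  T.rec (motive := fun _ => T → T) neg
    (fun c => T.rec (motive := fun _ => T) (l c) (fun d => lz (c - d)) (fun _ _ _ _ _ _ _ _ _ _ => l c))
    (fun a0 a1 a2 a3 a4 i0 i1 i2 i3 i4 =>
      T.rec (motive := fun _ => T) (n a0 a1 a2 a3 a4) (fun _ => n a0 a1 a2 a3 a4)
        (fun b0 b1 b2 b3 b4 _ _ _ _ _ => mk (i0 b0) (i1 b1) (i2 b2) (i3 b3) (i4 b4)))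
/-- table entry -/
noncomputable def Fp01 : T → T → T → T → T → (S → T) → (S → T) → (S → T) → (S → T) → (S → T) → T :=
  fun _ _ _ _ _ i0 i1 i2 i3 i4 => mk (i0 S.m15) (i1 S.p05) (i2 S.p01) (i3 S.p01) (i4 S.p01)
/-- table entry -/
noncomputable def Fp02 : T → T → T → T → T → (S → T) → (S → T) → (S → T) → (S → T) → (S → T) → T :=
  fun _ _ _ _ _ i0 i1 i2 i3 i4 => mk (i0 S.m25) (i1 S.p02) (i2 S.p05) (i3 S.p02) (i4 S.p02)
/-- table entry -/
noncomputable def Fp03 : T → T → T → T → T → (S → T) → (S → T) → (S → T) → (S → T) → (S → T) → T :=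
  fun _ _ _ _ _ i0 i1 i2 i3 i4 => mk (i0 S.m35) (i1 S.p03) (i2 S.p03) (i3 S.p05) (i4 S.p03)
/-- table entry -/
noncomputable def Fp04 : T → T → T → T → T → (S → T) → (S → T) → (S → T) → (S → T) → (S → T) → T :=
  fun _ _ _ _ _ i0 i1 i2 i3 i4 => mk (i0 S.m45) (i1 S.p04) (i2 S.p04) (i3 S.p04) (i4 S.p05)
/-- table entry -/
noncomputable def Fp05 : T → T → T → T → T → (S → T) → (S → T) → (S → T) → (S → T) → (S → T) → T :=
  fun t0 _ _ _ _ i0 i1 i2 i3 i4 => add t0 (mk (i0 S.m05) (i1 S.p01) (i2 S.p02) (i3 S.p03) (i4 S.p04))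
/-- table entry -/
noncomputable def Fm01 : T → T → T → T → T → (S → T) → (S → T) → (S → T) → (S → T) → (S → T) → T :=
  fun _ _ _ _ _ i0 i1 i2 i3 i4 => mk (i0 S.p15) (i1 S.m05) (i2 S.m01) (i3 S.m01) (i4 S.m01)
/-- table entry -/
noncomputable def Fp12 : T → T → T → T → T → (S → T) → (S → T) → (S → T) → (S → T) → (S → T) → T :=
  fun _ _ _ _ _ i0 i1 i2 i3 i4 => mk (i0 S.p12) (i1 S.m25) (i2 S.p15) (i3 S.p12) (i4 S.p12)
/-- table entry -/
noncomputable def Fp13 : T → T → T → T → T → (S → T) → (S → T) → (S → T) → (S → T) → (S → T) → T :=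
  fun _ _ _ _ _ i0 i1 i2 i3 i4 => mk (i0 S.p13) (i1 S.m35) (i2 S.p13) (i3 S.p15) (i4 S.p13)
/-- table entry -/
noncomputable def Fp14 : T → T → T → T → T → (S → T) → (S → T) → (S → T) → (S → T) → (S → T) → T :=
  fun _ _ _ _ _ i0 i1 i2 i3 i4 => mk (i0 S.p14) (i1 S.m45) (i2 S.p14) (i3 S.p14) (i4 S.p15)
/-- table entry -/
noncomputable def Fp15 : T → T → T → T → T → (S → T) → (S → T) → (S → T) → (S → T) → (S → T) → T :=
  fun _ t1 _ _ _ i0 i1 i2 i3 i4 => add t1 (mk (i0 S.m01) (i1 S.m15) (i2 S.p12) (i3 S.p13) (i4 S.p14))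
/-- table entry -/
noncomputable def Fm02 : T → T → T → T → T → (S → T) → (S → T) → (S → T) → (S → T) → (S → T) → T :=
  fun _ _ _ _ _ i0 i1 i2 i3 i4 => mk (i0 S.p25) (i1 S.m02) (i2 S.m05) (i3 S.m02) (i4 S.m02)
/-- table entry -/
noncomputable def Fm12 : T → T → T → T → T → (S → T) → (S → T) → (S → T) → (S → T) → (S → T) → T :=
  fun _ _ _ _ _ i0 i1 i2 i3 i4 => mk (i0 S.m12) (i1 S.p25) (i2 S.m15) (i3 S.m12) (i4 S.m12)
/-- table entry -/
noncomputable def Fp23 : T → T → T → T → T → (S → T) → (S → T) → (S → T) → (S → T) → (S → T) → T :=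
  fun _ _ _ _ _ i0 i1 i2 i3 i4 => mk (i0 S.p23) (i1 S.p23) (i2 S.m35) (i3 S.p25) (i4 S.p23)
/-- table entry -/
noncomputable def Fp24 : T → T → T → T → T → (S → T) → (S → T) → (S → T) → (S → T) → (S → T) → T :=
  fun _ _ _ _ _ i0 i1 i2 i3 i4 => mk (i0 S.p24) (i1 S.p24) (i2 S.m45) (i3 S.p24) (i4 S.p25)
/-- table entry -/
noncomputable def Fp25 : T → T → T → T → T → (S → T) → (S → T) → (S → T) → (S → T) → (S → T) → T :=
  fun _ _ t2 _ _ i0 i1 i2 i3 i4 => add t2 (mk (i0 S.m02) (i1 S.m12) (i2 S.m25) (i3 S.p23) (i4 S.p24))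
/-- table entry -/
noncomputable def Fm03 : T → T → T → T → T → (S → T) → (S → T) → (S → T) → (S → T) → (S → T) → T :=
  fun _ _ _ _ _ i0 i1 i2 i3 i4 => mk (i0 S.p35) (i1 S.m03) (i2 S.m03) (i3 S.m05) (i4 S.m03)
/-- table entry -/
noncomputable def Fm13 : T → T → T → T → T → (S → T) → (S → T) → (S → T) → (S → T) → (S → T) → T :=
  fun _ _ _ _ _ i0 i1 i2 i3 i4 => mk (i0 S.m13) (i1 S.p35) (i2 S.m13) (i3 S.m15) (i4 S.m13)
/-- table entry -/
noncomputable def Fm23 : T → T → T → T → T → (S → T) → (S → T) → (S → T) → (S → T) → (S → T) → T :=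
  fun _ _ _ _ _ i0 i1 i2 i3 i4 => mk (i0 S.m23) (i1 S.m23) (i2 S.p35) (i3 S.m25) (i4 S.m23)
/-- table entry -/
noncomputable def Fp34 : T → T → T → T → T → (S → T) → (S → T) → (S → T) → (S → T) → (S → T) → T :=
  fun _ _ _ _ _ i0 i1 i2 i3 i4 => mk (i0 S.p34) (i1 S.p34) (i2 S.p34) (i3 S.m45) (i4 S.p35)
/-- table entry -/
noncomputable def Fp35 : T → T → T → T → T → (S → T) → (S → T) → (S → T) → (S → T) → (S → T) → T :=
  fun _ _ _ t3 _ i0 i1 i2 i3 i4 => add t3 (mk (i0 S.m03) (i1 S.m13) (i2 S.m23) (i3 S.m35) (i4 S.p34))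
/-- table entry -/
noncomputable def Fm04 : T → T → T → T → T → (S → T) → (S → T) → (S → T) → (S → T) → (S → T) → T :=
  fun _ _ _ _ _ i0 i1 i2 i3 i4 => mk (i0 S.p45) (i1 S.m04) (i2 S.m04) (i3 S.m04) (i4 S.m05)
/-- table entry -/
noncomputable def Fm14 : T → T → T → T → T → (S → T) → (S → T) → (S → T) → (S → T) → (S → T) → T :=
  fun _ _ _ _ _ i0 i1 i2 i3 i4 => mk (i0 S.m14) (i1 S.p45) (i2 S.m14) (i3 S.m14) (i4 S.m15)
/-- table entry -/
noncomputable def Fm24 : T → T → T → T → T → (S → T) → (S → T) → (S → T) → (S → T) → (S → T) → T :=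
  fun _ _ _ _ _ i0 i1 i2 i3 i4 => mk (i0 S.m24) (i1 S.m24) (i2 S.p45) (i3 S.m24) (i4 S.m25)
/-- table entry -/
noncomputable def Fm34 : T → T → T → T → T → (S → T) → (S → T) → (S → T) → (S → T) → (S → T) → T :=
  fun _ _ _ _ _ i0 i1 i2 i3 i4 => mk (i0 S.m34) (i1 S.m34) (i2 S.m34) (i3 S.p45) (i4 S.m35)
/-- table entry -/
noncomputable def Fp45 : T → T → T → T → T → (S → T) → (S → T) → (S → T) → (S → T) → (S → T) → T :=
  fun _ _ _ _ t4 i0 i1 i2 i3 i4 => add t4 (mk (i0 S.m04) (i1 S.m14) (i2 S.m24) (i3 S.m34) (i4 S.m45))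
/-- table entry -/
noncomputable def Fm05 : T → T → T → T → T → (S → T) → (S → T) → (S → T) → (S → T) → (S → T) → T :=
  fun t0 _ _ _ _ i0 i1 i2 i3 i4 => sub (mk (i0 S.p05) (i1 S.m01) (i2 S.m02) (i3 S.m03) (i4 S.m04)) t0
/-- table entry -/
noncomputable def Fm15 : T → T → T → T → T → (S → T) → (S → T) → (S → T) → (S → T) → (S → T) → T :=
  fun _ t1 _ _ _ i0 i1 i2 i3 i4 => sub (mk (i0 S.p01) (i1 S.p15) (i2 S.m12) (i3 S.m13) (i4 S.m14)) t1
/-- table entry -/
noncomputable def Fm25 : T → T → T → T → T → (S → T) → (S → T) → (S → T) → (S → T) → (S → T) → T :=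
  fun _ _ t2 _ _ i0 i1 i2 i3 i4 => sub (mk (i0 S.p02) (i1 S.p12) (i2 S.p25) (i3 S.m23) (i4 S.m24)) t2
/-- table entry -/
noncomputable def Fm35 : T → T → T → T → T → (S → T) → (S → T) → (S → T) → (S → T) → (S → T) → T :=
  fun _ _ _ t3 _ i0 i1 i2 i3 i4 => sub (mk (i0 S.p03) (i1 S.p13) (i2 S.p23) (i3 S.p35) (i4 S.m34)) t3
/-- table entry -/
noncomputable def Fm45 : T → T → T → T → T → (S → T) → (S → T) → (S → T) → (S → T) → (S → T) → T :=
  fun _ _ _ _ t4 i0 i1 i2 i3 i4 => sub (mk (i0 S.p04) (i1 S.p14) (i2 S.p24) (i3 S.p34) (i4 S.p45)) t4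

/-- table -/
noncomputable def tbl : S → T → T → T → T → T → (S → T) → (S → T) → (S → T) → (S → T) → (S → T) → T :=
  S.rec Fp01 Fp02 Fp03 Fp04 Fp05 Fm01 Fp12 Fp13 Fp14 Fp15 Fm02 Fm12 Fp23 Fp24 Fp25 Fm03 Fm13 Fm23 Fp34 Fp35 Fm04 Fm14 Fm24 Fm34 Fp45 Fm05 Fm15 Fm25 Fm35 Fm45

/-- derivation -/
noncomputable def dT : T → S → T :=
  T.rec (motive := fun _ => S → T) (fun _ => z) (fun _ _ => z)
    (fun t0 t1 t2 t3 t4 i0 i1 i2 i3 i4 s => tbl s t0 t1 t2 t3 t4 i0 i1 i2 i3 i4)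
/-- relabelling -/
noncomputable def r01 : T → T :=
  T.rec (motive := fun _ => T) z (fun c => l c) (fun _ _ _ _ _ i0 i1 i2 i3 i4 => n i1 i0 i2 i3 i4)
/-- relabelling -/
noncomputable def r02 : T → T :=
  T.rec (motive := fun _ => T) z (fun c => l c) (fun _ _ _ _ _ i0 i1 i2 i3 i4 => n i2 i1 i0 i3 i4)
/-- relabelling -/
noncomputable def r03 : T → T :=
  T.rec (motive := fun _ => T) z (fun c => l c) (fun _ _ _ _ _ i0 i1 i2 i3 i4 => n i3 i1 i2 i0 i4)
/-- relabelling -/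
noncomputable def r04 : T → T :=
  T.rec (motive := fun _ => T) z (fun c => l c) (fun _ _ _ _ _ i0 i1 i2 i3 i4 => n i4 i1 i2 i3 i0)
/-- relabelling -/
noncomputable def r12 : T → T :=
  T.rec (motive := fun _ => T) z (fun c => l c) (fun _ _ _ _ _ i0 i1 i2 i3 i4 => n i0 i2 i1 i3 i4)
/-- relabelling -/
noncomputable def r13 : T → T :=
  T.rec (motive := fun _ => T) z (fun c => l c) (fun _ _ _ _ _ i0 i1 i2 i3 i4 => n i0 i3 i2 i1 i4)
/-- relabelling -/
noncomputable def r14 : T → T :=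
  T.rec (motive := fun _ => T) z (fun c => l c) (fun _ _ _ _ _ i0 i1 i2 i3 i4 => n i0 i4 i2 i3 i1)
/-- relabelling -/
noncomputable def r23 : T → T :=
  T.rec (motive := fun _ => T) z (fun c => l c) (fun _ _ _ _ _ i0 i1 i2 i3 i4 => n i0 i1 i3 i2 i4)
/-- relabelling -/
noncomputable def r24 : T → T :=
  T.rec (motive := fun _ => T) z (fun c => l c) (fun _ _ _ _ _ i0 i1 i2 i3 i4 => n i0 i1 i4 i3 i2)
/-- relabelling -/
noncomputable def r34 : T → T :=
  T.rec (motive := fun _ => T) z (fun c => l c) (fun _ _ _ _ _ i0 i1 i2 i3 i4 => n i0 i1 i2 i4 i3)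

/-- is it `z`? -/
noncomputable def isZ : T → Bool := T.rec (motive := fun _ => Bool) true (fun _ => false) (fun _ _ _ _ _ _ _ _ _ _ => false)

/-- zero test -/
noncomputable def nz (g : T → Bool) (t : T) : Bool := T.rec (motive := fun _ => Bool) true (fun _ => false) (fun _ _ _ _ _ _ _ _ _ _ => g t) t

/-- all five derivations -/
noncomputable def c5 (k : T → Bool) (t : T) : Bool :=
  and (k (dT t .p05)) (and (k (dT t .p15)) (and (k (dT t .p25)) (and (k (dT t .p35)) (k (dT t .p45)))))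
noncomputable def zc5 : ℕ → T → Bool := Nat.rec isZ (fun _ ih => nz (c5 ih))
noncomputable def c4 (k k' : T → Bool) (t : T) : Bool :=
  and (k (dT t .p05)) (and (k (dT t .p15)) (and (k (dT t .p25)) (and (k (dT t .p35)) (k' (dT t .p45)))))
noncomputable def zc4 : ℕ → T → Bool := Nat.rec isZ (fun m ih => nz (c4 ih (zc5 m)))
noncomputable def c3 (k k' : T → Bool) (t : T) : Bool :=
  and (k (dT t .p05)) (and (k (dT t .p15)) (and (k (dT t .p25)) (k' (dT t .p35))))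
noncomputable def zc3 : ℕ → T → Bool := Nat.rec isZ (fun m ih => nz (c3 ih (zc4 m)))
noncomputable def c2 (k k' : T → Bool) (t : T) : Bool :=
  and (k (dT t .p05)) (and (k (dT t .p15)) (k' (dT t .p25)))
noncomputable def zc2 : ℕ → T → Bool := Nat.rec isZ (fun m ih => nz (c2 ih (zc3 m)))
noncomputable def c1 (k k' : T → Bool) (t : T) : Bool :=
  and (k (dT t .p05)) (k' (dT t .p15))
noncomputable def zc1 : ℕ → T → Bool := Nat.rec isZ (fun m ih => nz (c1 ih (zc2 m)))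
noncomputable def c0 (k' : T → Bool) (t : T) : Bool := k' (dT t .p05)
noncomputable def zc0 : ℕ → T → Bool := Nat.rec isZ (fun m _ => nz (c0 (zc1 m)))

/-- word -/
noncomputable def cs (y : ℕ) (t : T) : T :=
  match y with
  | 0 => n t z z z z
  | 1 => n z t z z z
  | 2 => n z z t z z
  | 3 => n z z z t z
  | _ => n z z z z t

noncomputable def wd (c : ℤ) : List ℕ → T := List.rec (l c) (fun y _ ih => cs y ih)

noncomputable def ofL : List (ℤ × List ℕ) → T := List.rec z (fun p _ ih => add (wd p.1 p.2) ih)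


end T

end Pool.Agent.FKT
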