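import Pool.Agent.FKT.Zero

/-! The value of the functional on the words of `P0`. -/

namespace Pool.Agent.FKT

open Pool.Agent.H71.FK Pool.Agent.FKC
open Equiv (swap)
open T

/-- number of a letter -/
def fy : ℕ → Fin 6
  | 0 => 0
  | 1 => 1
  | 2 => 2
  | 3 => 3
  | _ => 4

theorem fy_ne (y : ℕ) : fy y ≠ 5 := by
  match y with
  | 0 | 1 | 2 | 3 | _ + 4 => simp [fy]

theorem ev_cs (y : ℕ) (t : T) : ev (cs y t) = tw (fy y) (ev t) := by
  match y with
  | 0 | 1 | 2 | 3 | _ + 4 => simp [cs, fy, ev]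

theorem wf_cs (y : ℕ) {t : T} {k : ℕ} (h : WF t k) : WF (cs y t) (k + 1) := by
  match y with
  | 0 | 1 | 2 | 3 | _ + 4 => exact wf_n.2 (by simp [h])

theorem wf_wd (c : ℤ) (w : List ℕ) : WF (wd c w) w.length := by
  induction w with
  | nil => exact rfl
  | cons y w ih => exact wf_cs y ih

theorem ofL_spec (k : ℕ) (L : List (ℤ × List ℕ)) (h : ∀ p ∈ L, p.2.length = k) :
    ev (ofL L) = (L.map fun p => ev (wd p.1 p.2)).sum ∧ WF (ofL L) k := by
  induction L with
  | nil => exact ⟨by simp [ofL, ev], wf_z _⟩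
  | cons p L ih =>
    have ih := ih fun q hq => h q (List.mem_cons_of_mem _ hq)
    have hp : p.2.length = k := h p (by simp)
    have h1 := wf_wd p.1 p.2
    rw [hp] at h1
    have h2 := add_spec (wd p.1 p.2) (ofL L) k h1 ih.2
    refine ⟨?_, h2.2⟩
    rw [List.map_cons, List.sum_cons, ← ih.1]
    exact h2.1

/-- the letters of a word, last factor first -/
def zr : List ℕ → List (Fin 6 × Fin 6)
  | [] => []
  | y :: w => (fy y, 5) :: (zr w).map fun p => (swap (fy y) 5 p.1, swap (fy y) 5 p.2)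

theorem ev_wd (c : ℤ) (w : List ℕ) : ev (wd c w) = (c : ℚ) • mon (zr w).reverse := by
  induction w with
  | nil => simp [wd, ev, zr]
  | cons y w ih =>
    change ev (cs y (wd c w)) = _
    rw [ev_cs, ih, map_smul, tw_apply, act_mon]
    congr 1
    rw [zr, List.reverse_cons, mon_append, mon_cons, mon_nil, mul_one, List.map_reverse]

/-- the pair `(a, b)` -/
def st (a b : Fin 6) : S :=
  match a, b with
  | 0, 1 => .p01 | 0, 2 => .p02 | 0, 3 => .p03 | 0, 4 => .p04 | 0, 5 => .p05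
  | 1, 0 => .m01 | 1, 2 => .p12 | 1, 3 => .p13 | 1, 4 => .p14 | 1, 5 => .p15
  | 2, 0 => .m02 | 2, 1 => .m12 | 2, 3 => .p23 | 2, 4 => .p24 | 2, 5 => .p25
  | 3, 0 => .m03 | 3, 1 => .m13 | 3, 2 => .m23 | 3, 4 => .p34 | 3, 5 => .p35
  | 4, 0 => .m04 | 4, 1 => .m14 | 4, 2 => .m24 | 4, 3 => .m34 | 4, 5 => .p45
  | 5, 0 => .m05 | 5, 1 => .m15 | 5, 2 => .m25 | 5, 3 => .m35 | 5, 4 => .m45
  | _, _ => .p01

theorem st_spec : ∀ a b : Fin 6, a ≠ b → fa (st a b) = a ∧ fb (st a b) = b := by decide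

/-- iterated derivations -/
noncomputable def ap : T → List (Fin 6 × Fin 6) → T
  | t, [] => t
  | t, p :: w => ap (dT t (st p.1 p.2)) w

/-- value of a trie of words of length zero -/
def cst : T → ℤ
  | .z => 0
  | .l c => c
  | .n _ _ _ _ _ => 0

theorem form_ap (w : List (Fin 6 × Fin 6)) (hl : ∀ p ∈ w, p.1 ≠ p.2) (t : T)
    (h : WF t w.length) : form (ev t) (mon w.reverse) = (cst (ap t w) : ℚ) := by
  induction w generalizing t with
  | nil =>
    rw [List.reverse_nil, mon_nil, form_one_right]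
    cases t with
    | z => simp [ev, ap, cst]
    | l c => simp [ev, ap, cst]
    | n => exact absurd h not_wf_n
  | cons p w ih =>
    rw [List.reverse_cons, mon_append, mon_cons, mon_nil, mul_one, form_right_mul_x]
    have h1 := dT_spec t _ h (st p.1 p.2)
    have h2 := st_spec p.1 p.2 (hl p (by simp))
    rw [h2.1, h2.2] at h1
    rw [← h1.1, ih (fun q hq => hl q (List.mem_cons_of_mem _ hq)) _ h1.2.1]
    rfl

/-- `Λ_{y5}` -/
noncomputable def rA : ℕ → T
  | 0 => A
  | 1 => r01 A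
  | 2 => r02 A
  | 3 => r03 A
  | _ => r04 A

theorem ev_rA (y : ℕ) : ev (rA y) = act (swap 0 (fy y)) (ev A) := by
  match y with
  | 0 =>
    have h : act (swap (0 : Fin 6) (fy 0)) (ev A) = act 1 (ev A) := by
      rw [show fy 0 = 0 from rfl, Equiv.swap_self]; rfl
    rw [h, act_one]; rfl
  | 1 => exact ev_r01 A
  | 2 => exact ev_r02 A
  | 3 => exact ev_r03 A
  | _ + 4 => exact ev_r04 A

theorem wf_rA (y : ℕ) {k : ℕ} (h : WF A k) : WF (rA y) k := by
  match y with
  | 0 => exact h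
  | 1 => exact wf_r01 h
  | 2 => exact wf_r02 h
  | 3 => exact wf_r03 h
  | _ + 4 => exact wf_r04 h

/-- the letters after the first one, twisted -/
def zm (y : ℕ) (w : List ℕ) : List (Fin 6 × Fin 6) :=
  (zr w).map fun p => (swap (fy y) 5 p.1, swap (fy y) 5 p.2)

/-- value of the functional on a word -/
noncomputable def val : List ℕ → ℤ
  | [] => 0
  | y :: w => cst (ap (rA y) (zm y w))

theorem zr_length (w : List ℕ) : (zr w).length = w.length := by
  induction w with
  | nil => rfl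
  | cons y w ih => simp [zr, ih]

theorem zr_ne (w : List ℕ) : ∀ p ∈ zr w, p.1 ≠ p.2 := by
  induction w with
  | nil => simp [zr]
  | cons y w ih =>
    intro p hp
    rw [zr, List.mem_cons] at hp
    rcases hp with rfl | hp
    · exact fy_ne y
    · obtain ⟨q, hq, rfl⟩ := List.mem_map.1 hp
      intro e
      exact ih q hq ((swap (fy y) 5).injective e)

theorem phi_wd (φ : E (Fin 6) →ₗ[ℚ] ℚ)
    (hφ : ∀ y, y ≠ 5 → ∀ Q, φ (Q * x y 5) = form (act (swap 0 y) (ev A)) Q) (c : ℤ) (y : ℕ)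
    (w : List ℕ) (hA : WF A w.length) : φ (ev (wd c (y :: w))) = (c * val (y :: w) : ℚ) := by
  have e : ev (wd c (y :: w)) = (c : ℚ) • (mon (zm y w).reverse * x (fy y) 5) := by
    rw [ev_wd, zr, List.reverse_cons, mon_append, mon_cons, mon_nil, mul_one]; rfl
  rw [e, map_smul, hφ _ (fy_ne y), ← ev_rA, form_ap]
  · rfl
  · intro p hp
    obtain ⟨q, hq, rfl⟩ := List.mem_map.1 hp
    intro e
    exact zr_ne w q hq ((swap (fy y) 5).injective e)
  · rw [zm, List.length_map, zr_length]; exact wf_rA y hA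

end Pool.Agent.FKT
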