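import Pool.Agent.FKT.Space

/-! Relabelling of tries, and the soundness of the zero test. -/

namespace Pool.Agent.FKT

open Pool.Agent.H71.FK Pool.Agent.FKC
open Equiv (swap)
open T

/-- `X` is in the radical of the form -/
def R (X : E (Fin 6)) : Prop := ∀ Q, form X Q = 0

theorem ev_r01 (t : T) : ev (r01 t) = act (swap 0 1) (ev t) := by
  induction t with
  | z => simp [r01, ev]
  | l c => simp [r01, ev]
  | n t0 t1 t2 t3 t4 h0 h1 h2 h3 h4 =>
    have e0 : swap (0 : Fin 6) 1 0 = 1 := by decide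
    have e1 : swap (0 : Fin 6) 1 1 = 0 := by decide
    have e2 : swap (0 : Fin 6) 1 2 = 2 := by decide
    have e3 : swap (0 : Fin 6) 1 3 = 3 := by decide
    have e4 : swap (0 : Fin 6) 1 4 = 4 := by decide
    have e5 : swap (0 : Fin 6) 1 5 = 5 := by decide
    change ev (n (r01 t1) (r01 t0) (r01 t2) (r01 t3) (r01 t4)) = _
    simp only [ev, map_add, act_tw _ e5, h0, h1, h2, h3, h4, e0, e1, e2, e3, e4]
    abel

theorem wf_r01 {t : T} {k : ℕ} (h : WF t k) : WF (r01 t) k := by
  induction t generalizing k with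
  | z => exact wf_z _
  | l c => exact h
  | n t0 t1 t2 t3 t4 h0 h1 h2 h3 h4 =>
    obtain ⟨j, rfl, w0, w1, w2, w3, w4⟩ := h
    exact wf_n.2 ⟨h1 w1, h0 w0, h2 w2, h3 w3, h4 w4⟩

theorem ev_r02 (t : T) : ev (r02 t) = act (swap 0 2) (ev t) := by
  induction t with
  | z => simp [r02, ev]
  | l c => simp [r02, ev]
  | n t0 t1 t2 t3 t4 h0 h1 h2 h3 h4 =>
    have e0 : swap (0 : Fin 6) 2 0 = 2 := by decide
    have e1 : swap (0 : Fin 6) 2 1 = 1 := by decide
    have e2 : swap (0 : Fin 6) 2 2 = 0 := by decide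
    have e3 : swap (0 : Fin 6) 2 3 = 3 := by decide
    have e4 : swap (0 : Fin 6) 2 4 = 4 := by decide
    have e5 : swap (0 : Fin 6) 2 5 = 5 := by decide
    change ev (n (r02 t2) (r02 t1) (r02 t0) (r02 t3) (r02 t4)) = _
    simp only [ev, map_add, act_tw _ e5, h0, h1, h2, h3, h4, e0, e1, e2, e3, e4]
    abel

theorem wf_r02 {t : T} {k : ℕ} (h : WF t k) : WF (r02 t) k := by
  induction t generalizing k with
  | z => exact wf_z _
  | l c => exact h
  | n t0 t1 t2 t3 t4 h0 h1 h2 h3 h4 =>
    obtain ⟨j, rfl, w0, w1, w2, w3, w4⟩ := h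
    exact wf_n.2 ⟨h2 w2, h1 w1, h0 w0, h3 w3, h4 w4⟩

theorem ev_r03 (t : T) : ev (r03 t) = act (swap 0 3) (ev t) := by
  induction t with
  | z => simp [r03, ev]
  | l c => simp [r03, ev]
  | n t0 t1 t2 t3 t4 h0 h1 h2 h3 h4 =>
    have e0 : swap (0 : Fin 6) 3 0 = 3 := by decide
    have e1 : swap (0 : Fin 6) 3 1 = 1 := by decide
    have e2 : swap (0 : Fin 6) 3 2 = 2 := by decide
    have e3 : swap (0 : Fin 6) 3 3 = 0 := by decide
    have e4 : swap (0 : Fin 6) 3 4 = 4 := by decide
    have e5 : swap (0 : Fin 6) 3 5 = 5 := by decide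
    change ev (n (r03 t3) (r03 t1) (r03 t2) (r03 t0) (r03 t4)) = _
    simp only [ev, map_add, act_tw _ e5, h0, h1, h2, h3, h4, e0, e1, e2, e3, e4]
    abel

theorem wf_r03 {t : T} {k : ℕ} (h : WF t k) : WF (r03 t) k := by
  induction t generalizing k with
  | z => exact wf_z _
  | l c => exact h
  | n t0 t1 t2 t3 t4 h0 h1 h2 h3 h4 =>
    obtain ⟨j, rfl, w0, w1, w2, w3, w4⟩ := h
    exact wf_n.2 ⟨h3 w3, h1 w1, h2 w2, h0 w0, h4 w4⟩

theorem ev_r04 (t : T) : ev (r04 t) = act (swap 0 4) (ev t) := by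
  induction t with
  | z => simp [r04, ev]
  | l c => simp [r04, ev]
  | n t0 t1 t2 t3 t4 h0 h1 h2 h3 h4 =>
    have e0 : swap (0 : Fin 6) 4 0 = 4 := by decide
    have e1 : swap (0 : Fin 6) 4 1 = 1 := by decide
    have e2 : swap (0 : Fin 6) 4 2 = 2 := by decide
    have e3 : swap (0 : Fin 6) 4 3 = 3 := by decide
    have e4 : swap (0 : Fin 6) 4 4 = 0 := by decide
    have e5 : swap (0 : Fin 6) 4 5 = 5 := by decide
    change ev (n (r04 t4) (r04 t1) (r04 t2) (r04 t3) (r04 t0)) = _
    simp only [ev, map_add, act_tw _ e5, h0, h1, h2, h3, h4, e0, e1, e2, e3, e4]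
    abel

theorem wf_r04 {t : T} {k : ℕ} (h : WF t k) : WF (r04 t) k := by
  induction t generalizing k with
  | z => exact wf_z _
  | l c => exact h
  | n t0 t1 t2 t3 t4 h0 h1 h2 h3 h4 =>
    obtain ⟨j, rfl, w0, w1, w2, w3, w4⟩ := h
    exact wf_n.2 ⟨h4 w4, h1 w1, h2 w2, h3 w3, h0 w0⟩

theorem ev_r12 (t : T) : ev (r12 t) = act (swap 1 2) (ev t) := by
  induction t with
  | z => simp [r12, ev]
  | l c => simp [r12, ev]
  | n t0 t1 t2 t3 t4 h0 h1 h2 h3 h4 =>
    have e0 : swap (1 : Fin 6) 2 0 = 0 := by decide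
    have e1 : swap (1 : Fin 6) 2 1 = 2 := by decide
    have e2 : swap (1 : Fin 6) 2 2 = 1 := by decide
    have e3 : swap (1 : Fin 6) 2 3 = 3 := by decide
    have e4 : swap (1 : Fin 6) 2 4 = 4 := by decide
    have e5 : swap (1 : Fin 6) 2 5 = 5 := by decide
    change ev (n (r12 t0) (r12 t2) (r12 t1) (r12 t3) (r12 t4)) = _
    simp only [ev, map_add, act_tw _ e5, h0, h1, h2, h3, h4, e0, e1, e2, e3, e4]
    abel

theorem wf_r12 {t : T} {k : ℕ} (h : WF t k) : WF (r12 t) k := by
  induction t generalizing k with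
  | z => exact wf_z _
  | l c => exact h
  | n t0 t1 t2 t3 t4 h0 h1 h2 h3 h4 =>
    obtain ⟨j, rfl, w0, w1, w2, w3, w4⟩ := h
    exact wf_n.2 ⟨h0 w0, h2 w2, h1 w1, h3 w3, h4 w4⟩

theorem ev_r13 (t : T) : ev (r13 t) = act (swap 1 3) (ev t) := by
  induction t with
  | z => simp [r13, ev]
  | l c => simp [r13, ev]
  | n t0 t1 t2 t3 t4 h0 h1 h2 h3 h4 =>
    have e0 : swap (1 : Fin 6) 3 0 = 0 := by decide
    have e1 : swap (1 : Fin 6) 3 1 = 3 := by decide
    have e2 : swap (1 : Fin 6) 3 2 = 2 := by decide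
    have e3 : swap (1 : Fin 6) 3 3 = 1 := by decide
    have e4 : swap (1 : Fin 6) 3 4 = 4 := by decide
    have e5 : swap (1 : Fin 6) 3 5 = 5 := by decide
    change ev (n (r13 t0) (r13 t3) (r13 t2) (r13 t1) (r13 t4)) = _
    simp only [ev, map_add, act_tw _ e5, h0, h1, h2, h3, h4, e0, e1, e2, e3, e4]
    abel

theorem wf_r13 {t : T} {k : ℕ} (h : WF t k) : WF (r13 t) k := by
  induction t generalizing k with
  | z => exact wf_z _
  | l c => exact h
  | n t0 t1 t2 t3 t4 h0 h1 h2 h3 h4 =>
    obtain ⟨j, rfl, w0, w1, w2, w3, w4⟩ := h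
    exact wf_n.2 ⟨h0 w0, h3 w3, h2 w2, h1 w1, h4 w4⟩

theorem ev_r14 (t : T) : ev (r14 t) = act (swap 1 4) (ev t) := by
  induction t with
  | z => simp [r14, ev]
  | l c => simp [r14, ev]
  | n t0 t1 t2 t3 t4 h0 h1 h2 h3 h4 =>
    have e0 : swap (1 : Fin 6) 4 0 = 0 := by decide
    have e1 : swap (1 : Fin 6) 4 1 = 4 := by decide
    have e2 : swap (1 : Fin 6) 4 2 = 2 := by decide
    have e3 : swap (1 : Fin 6) 4 3 = 3 := by decide
    have e4 : swap (1 : Fin 6) 4 4 = 1 := by decide
    have e5 : swap (1 : Fin 6) 4 5 = 5 := by decide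
    change ev (n (r14 t0) (r14 t4) (r14 t2) (r14 t3) (r14 t1)) = _
    simp only [ev, map_add, act_tw _ e5, h0, h1, h2, h3, h4, e0, e1, e2, e3, e4]
    abel

theorem wf_r14 {t : T} {k : ℕ} (h : WF t k) : WF (r14 t) k := by
  induction t generalizing k with
  | z => exact wf_z _
  | l c => exact h
  | n t0 t1 t2 t3 t4 h0 h1 h2 h3 h4 =>
    obtain ⟨j, rfl, w0, w1, w2, w3, w4⟩ := h
    exact wf_n.2 ⟨h0 w0, h4 w4, h2 w2, h3 w3, h1 w1⟩

theorem ev_r23 (t : T) : ev (r23 t) = act (swap 2 3) (ev t) := by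
  induction t with
  | z => simp [r23, ev]
  | l c => simp [r23, ev]
  | n t0 t1 t2 t3 t4 h0 h1 h2 h3 h4 =>
    have e0 : swap (2 : Fin 6) 3 0 = 0 := by decide
    have e1 : swap (2 : Fin 6) 3 1 = 1 := by decide
    have e2 : swap (2 : Fin 6) 3 2 = 3 := by decide
    have e3 : swap (2 : Fin 6) 3 3 = 2 := by decide
    have e4 : swap (2 : Fin 6) 3 4 = 4 := by decide
    have e5 : swap (2 : Fin 6) 3 5 = 5 := by decide
    change ev (n (r23 t0) (r23 t1) (r23 t3) (r23 t2) (r23 t4)) = _
    simp only [ev, map_add, act_tw _ e5, h0, h1, h2, h3, h4, e0, e1, e2, e3, e4]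
    abel

theorem wf_r23 {t : T} {k : ℕ} (h : WF t k) : WF (r23 t) k := by
  induction t generalizing k with
  | z => exact wf_z _
  | l c => exact h
  | n t0 t1 t2 t3 t4 h0 h1 h2 h3 h4 =>
    obtain ⟨j, rfl, w0, w1, w2, w3, w4⟩ := h
    exact wf_n.2 ⟨h0 w0, h1 w1, h3 w3, h2 w2, h4 w4⟩

theorem ev_r24 (t : T) : ev (r24 t) = act (swap 2 4) (ev t) := by
  induction t with
  | z => simp [r24, ev]
  | l c => simp [r24, ev]
  | n t0 t1 t2 t3 t4 h0 h1 h2 h3 h4 =>
    have e0 : swap (2 : Fin 6) 4 0 = 0 := by decide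
    have e1 : swap (2 : Fin 6) 4 1 = 1 := by decide
    have e2 : swap (2 : Fin 6) 4 2 = 4 := by decide
    have e3 : swap (2 : Fin 6) 4 3 = 3 := by decide
    have e4 : swap (2 : Fin 6) 4 4 = 2 := by decide
    have e5 : swap (2 : Fin 6) 4 5 = 5 := by decide
    change ev (n (r24 t0) (r24 t1) (r24 t4) (r24 t3) (r24 t2)) = _
    simp only [ev, map_add, act_tw _ e5, h0, h1, h2, h3, h4, e0, e1, e2, e3, e4]
    abel

theorem wf_r24 {t : T} {k : ℕ} (h : WF t k) : WF (r24 t) k := by
  induction t generalizing k with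
  | z => exact wf_z _
  | l c => exact h
  | n t0 t1 t2 t3 t4 h0 h1 h2 h3 h4 =>
    obtain ⟨j, rfl, w0, w1, w2, w3, w4⟩ := h
    exact wf_n.2 ⟨h0 w0, h1 w1, h4 w4, h3 w3, h2 w2⟩

theorem ev_r34 (t : T) : ev (r34 t) = act (swap 3 4) (ev t) := by
  induction t with
  | z => simp [r34, ev]
  | l c => simp [r34, ev]
  | n t0 t1 t2 t3 t4 h0 h1 h2 h3 h4 =>
    have e0 : swap (3 : Fin 6) 4 0 = 0 := by decide
    have e1 : swap (3 : Fin 6) 4 1 = 1 := by decide
    have e2 : swap (3 : Fin 6) 4 2 = 2 := by decide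
    have e3 : swap (3 : Fin 6) 4 3 = 4 := by decide
    have e4 : swap (3 : Fin 6) 4 4 = 3 := by decide
    have e5 : swap (3 : Fin 6) 4 5 = 5 := by decide
    change ev (n (r34 t0) (r34 t1) (r34 t2) (r34 t4) (r34 t3)) = _
    simp only [ev, map_add, act_tw _ e5, h0, h1, h2, h3, h4, e0, e1, e2, e3, e4]
    abel

theorem wf_r34 {t : T} {k : ℕ} (h : WF t k) : WF (r34 t) k := by
  induction t generalizing k with
  | z => exact wf_z _
  | l c => exact h
  | n t0 t1 t2 t3 t4 h0 h1 h2 h3 h4 =>
    obtain ⟨j, rfl, w0, w1, w2, w3, w4⟩ := h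
    exact wf_n.2 ⟨h0 w0, h1 w1, h2 w2, h4 w4, h3 w3⟩

theorem isZ_eq {t : T} (h : isZ t = true) : t = z := by
  cases t with
  | z => rfl
  | l c => exact absurd h (by simp [isZ])
  | n => exact absurd h (by simp [isZ])

theorem R_zero : R 0 := fun Q => by simp [form]

theorem R_act (g : Equiv.Perm (Fin 6)) {X : E (Fin 6)} (h : R X) : R (act g X) := fun Q => by
  rw [form_act_left]; exact h _

theorem R_step {X : E (Fin 6)} (hX : X ∈ SS) (h0 : eps X = 0)
    (h : ∀ s, s ≠ 5 → R (D s 5 X)) : R X :=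
  hN_of_stable 5 SS SS_D SS_eps X hX h0 h

/-- invariance under the transpositions of the letters `≥ m` -/
def Inv (m : ℕ) (X : E (Fin 6)) : Prop :=
  ∀ i j : Fin 6, m ≤ i.val → m ≤ j.val → i ≠ 5 → j ≠ 5 → act (swap i j) X = X

theorem Inv.D_lt {m : ℕ} {X : E (Fin 6)} (h : Inv m X) {s : Fin 6} (hs : s.val < m) :
    Inv m (D s 5 X) := by
  intro i j hi hj hi5 hj5
  rw [act_D, Equiv.swap_apply_of_ne_of_ne (by rintro rfl; omega) (by rintro rfl; omega),
    Equiv.swap_apply_of_ne_of_ne hi5.symm hj5.symm, h i j hi hj hi5 hj5]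

theorem Inv.D_eq {m : ℕ} {X : E (Fin 6)} (h : Inv m X) {s : Fin 6} (hs : s.val = m) :
    Inv (m + 1) (D s 5 X) := by
  intro i j hi hj hi5 hj5
  rw [act_D, Equiv.swap_apply_of_ne_of_ne (by rintro rfl; omega) (by rintro rfl; omega),
    Equiv.swap_apply_of_ne_of_ne hi5.symm hj5.symm, h i j (by omega) (by omega) hi5 hj5]

theorem Inv.R_of {m : ℕ} {X : E (Fin 6)} (h : Inv m X) {s t : Fin 6} (hs : s.val = m)
    (ht : m ≤ t.val) (hs5 : s ≠ 5) (ht5 : t ≠ 5) (hR : R (D s 5 X)) : R (D t 5 X) := by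
  have e : D t 5 X = act (swap s t) (D s 5 X) := by
    rw [act_D, Equiv.swap_apply_left, Equiv.swap_apply_of_ne_of_ne hs5.symm ht5.symm,
      h s t hs.ge ht hs5 ht5]
  rw [e]; exact R_act _ hR

theorem node_mem {t : T} {k : ℕ} (h : WF t (k + 1)) : ev t ∈ SS ∧ eps (ev t) = 0 :=
  ⟨Kk_le _ (ev_mem h), eps_Kk (ev_mem h)⟩

theorem zc5_sound (k : ℕ) : ∀ t, zc5 k t = true → WF t k → R (ev t) := by
  induction k with
  | zero =>
    intro t h _
    rw [isZ_eq h]; exact R_zero
  | succ k ih =>
    intro t h w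
    cases t with
    | z => exact R_zero
    | l c => exact absurd w not_wf_l
    | n t0 t1 t2 t3 t4 =>
      generalize hT : n t0 t1 t2 t3 t4 = t at *
      have h : c5 (zc5 k) t = true := by
        subst hT; exact h
      simp only [c5, Bool.and_eq_true] at h
      obtain ⟨h0, h1, h2, h3, h4⟩ := h
      obtain ⟨hS, he⟩ := node_mem w
      have d0 := dT_spec t (k + 1) w .p05
      have d1 := dT_spec t (k + 1) w .p15
      have d2 := dT_spec t (k + 1) w .p25
      have d3 := dT_spec t (k + 1) w .p35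
      have d4 := dT_spec t (k + 1) w .p45
      have r0 : R (D 0 5 (ev t)) := by
        have := ih _ h0 d0.2.1
        rwa [d0.1] at this
      have r1 : R (D 1 5 (ev t)) := by
        have := ih _ h1 d1.2.1
        rwa [d1.1] at this
      have r2 : R (D 2 5 (ev t)) := by
        have := ih _ h2 d2.2.1
        rwa [d2.1] at this
      have r3 : R (D 3 5 (ev t)) := by
        have := ih _ h3 d3.2.1
        rwa [d3.1] at this
      have r4 : R (D 4 5 (ev t)) := by
        have := ih _ h4 d4.2.1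
        rwa [d4.1] at this
      refine R_step hS he fun s hs => ?_
      fin_cases s
      · exact r0
      · exact r1
      · exact r2
      · exact r3
      · exact r4
      · exact absurd rfl hs

theorem zc4_sound (k : ℕ) : ∀ t, zc4 k t = true → WF t k → Inv 4 (ev t) → R (ev t) := by
  induction k with
  | zero =>
    intro t h _ _
    rw [isZ_eq h]; exact R_zero
  | succ k ih =>
    intro t h w hI
    cases t with
    | z => exact R_zero
    | l c => exact absurd w not_wf_l
    | n t0 t1 t2 t3 t4 =>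
      generalize hT : n t0 t1 t2 t3 t4 = t at *
      have h : c4 (zc4 k) (zc5 k) t = true := by
        subst hT; exact h
      simp only [c4, Bool.and_eq_true] at h
      obtain ⟨h0, h1, h2, h3, h4⟩ := h
      obtain ⟨hS, he⟩ := node_mem w
      have d0 := dT_spec t (k + 1) w .p05
      have d1 := dT_spec t (k + 1) w .p15
      have d2 := dT_spec t (k + 1) w .p25
      have d3 := dT_spec t (k + 1) w .p35
      have d4 := dT_spec t (k + 1) w .p45
      have r0 : R (D 0 5 (ev t)) := by
        have := ih _ h0 d0.2.1 (by rw [d0.1]; exact hI.D_lt (s := 0) (by decide))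
        rwa [d0.1] at this
      have r1 : R (D 1 5 (ev t)) := by
        have := ih _ h1 d1.2.1 (by rw [d1.1]; exact hI.D_lt (s := 1) (by decide))
        rwa [d1.1] at this
      have r2 : R (D 2 5 (ev t)) := by
        have := ih _ h2 d2.2.1 (by rw [d2.1]; exact hI.D_lt (s := 2) (by decide))
        rwa [d2.1] at this
      have r3 : R (D 3 5 (ev t)) := by
        have := ih _ h3 d3.2.1 (by rw [d3.1]; exact hI.D_lt (s := 3) (by decide))
        rwa [d3.1] at this
      have r4 : R (D 4 5 (ev t)) := by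
        have := zc5_sound k _ h4 d4.2.1
        rwa [d4.1] at this
      refine R_step hS he fun s hs => ?_
      fin_cases s
      · exact r0
      · exact r1
      · exact r2
      · exact r3
      · exact r4
      · exact absurd rfl hs

theorem zc3_sound (k : ℕ) : ∀ t, zc3 k t = true → WF t k → Inv 3 (ev t) → R (ev t) := by
  induction k with
  | zero =>
    intro t h _ _
    rw [isZ_eq h]; exact R_zero
  | succ k ih =>
    intro t h w hI
    cases t with
    | z => exact R_zero
    | l c => exact absurd w not_wf_l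
    | n t0 t1 t2 t3 t4 =>
      generalize hT : n t0 t1 t2 t3 t4 = t at *
      have h : c3 (zc3 k) (zc4 k) t = true := by
        subst hT; exact h
      simp only [c3, Bool.and_eq_true] at h
      obtain ⟨h0, h1, h2, h3⟩ := h
      obtain ⟨hS, he⟩ := node_mem w
      have d0 := dT_spec t (k + 1) w .p05
      have d1 := dT_spec t (k + 1) w .p15
      have d2 := dT_spec t (k + 1) w .p25
      have d3 := dT_spec t (k + 1) w .p35
      have r0 : R (D 0 5 (ev t)) := by
        have := ih _ h0 d0.2.1 (by rw [d0.1]; exact hI.D_lt (s := 0) (by decide))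
        rwa [d0.1] at this
      have r1 : R (D 1 5 (ev t)) := by
        have := ih _ h1 d1.2.1 (by rw [d1.1]; exact hI.D_lt (s := 1) (by decide))
        rwa [d1.1] at this
      have r2 : R (D 2 5 (ev t)) := by
        have := ih _ h2 d2.2.1 (by rw [d2.1]; exact hI.D_lt (s := 2) (by decide))
        rwa [d2.1] at this
      have r3 : R (D 3 5 (ev t)) := by
        have := zc4_sound k _ h3 d3.2.1 (by rw [d3.1]; exact hI.D_eq (s := 3) rfl)
        rwa [d3.1] at this
      have r4 : R (D 4 5 (ev t)) := hI.R_of (s := 3) (t := 4) rfl (by decide) (by decide) (by decide) r3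
      refine R_step hS he fun s hs => ?_
      fin_cases s
      · exact r0
      · exact r1
      · exact r2
      · exact r3
      · exact r4
      · exact absurd rfl hs

theorem zc2_sound (k : ℕ) : ∀ t, zc2 k t = true → WF t k → Inv 2 (ev t) → R (ev t) := by
  induction k with
  | zero =>
    intro t h _ _
    rw [isZ_eq h]; exact R_zero
  | succ k ih =>
    intro t h w hI
    cases t with
    | z => exact R_zero
    | l c => exact absurd w not_wf_l
    | n t0 t1 t2 t3 t4 =>
      generalize hT : n t0 t1 t2 t3 t4 = t at *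
      have h : c2 (zc2 k) (zc3 k) t = true := by
        subst hT; exact h
      simp only [c2, Bool.and_eq_true] at h
      obtain ⟨h0, h1, h2⟩ := h
      obtain ⟨hS, he⟩ := node_mem w
      have d0 := dT_spec t (k + 1) w .p05
      have d1 := dT_spec t (k + 1) w .p15
      have d2 := dT_spec t (k + 1) w .p25
      have r0 : R (D 0 5 (ev t)) := by
        have := ih _ h0 d0.2.1 (by rw [d0.1]; exact hI.D_lt (s := 0) (by decide))
        rwa [d0.1] at this
      have r1 : R (D 1 5 (ev t)) := by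
        have := ih _ h1 d1.2.1 (by rw [d1.1]; exact hI.D_lt (s := 1) (by decide))
        rwa [d1.1] at this
      have r2 : R (D 2 5 (ev t)) := by
        have := zc3_sound k _ h2 d2.2.1 (by rw [d2.1]; exact hI.D_eq (s := 2) rfl)
        rwa [d2.1] at this
      have r3 : R (D 3 5 (ev t)) := hI.R_of (s := 2) (t := 3) rfl (by decide) (by decide) (by decide) r2
      have r4 : R (D 4 5 (ev t)) := hI.R_of (s := 2) (t := 4) rfl (by decide) (by decide) (by decide) r2
      refine R_step hS he fun s hs => ?_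
      fin_cases s
      · exact r0
      · exact r1
      · exact r2
      · exact r3
      · exact r4
      · exact absurd rfl hs

theorem zc1_sound (k : ℕ) : ∀ t, zc1 k t = true → WF t k → Inv 1 (ev t) → R (ev t) := by
  induction k with
  | zero =>
    intro t h _ _
    rw [isZ_eq h]; exact R_zero
  | succ k ih =>
    intro t h w hI
    cases t with
    | z => exact R_zero
    | l c => exact absurd w not_wf_l
    | n t0 t1 t2 t3 t4 =>
      generalize hT : n t0 t1 t2 t3 t4 = t at *
      have h : c1 (zc1 k) (zc2 k) t = true := by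
        subst hT; exact h
      simp only [c1, Bool.and_eq_true] at h
      obtain ⟨h0, h1⟩ := h
      obtain ⟨hS, he⟩ := node_mem w
      have d0 := dT_spec t (k + 1) w .p05
      have d1 := dT_spec t (k + 1) w .p15
      have r0 : R (D 0 5 (ev t)) := by
        have := ih _ h0 d0.2.1 (by rw [d0.1]; exact hI.D_lt (s := 0) (by decide))
        rwa [d0.1] at this
      have r1 : R (D 1 5 (ev t)) := by
        have := zc2_sound k _ h1 d1.2.1 (by rw [d1.1]; exact hI.D_eq (s := 1) rfl)
        rwa [d1.1] at this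
      have r2 : R (D 2 5 (ev t)) := hI.R_of (s := 1) (t := 2) rfl (by decide) (by decide) (by decide) r1
      have r3 : R (D 3 5 (ev t)) := hI.R_of (s := 1) (t := 3) rfl (by decide) (by decide) (by decide) r1
      have r4 : R (D 4 5 (ev t)) := hI.R_of (s := 1) (t := 4) rfl (by decide) (by decide) (by decide) r1
      refine R_step hS he fun s hs => ?_
      fin_cases s
      · exact r0
      · exact r1
      · exact r2
      · exact r3
      · exact r4
      · exact absurd rfl hs

theorem zc0_sound (k : ℕ) : ∀ t, zc0 k t = true → WF t k → Inv 0 (ev t) → R (ev t) := by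
  cases k with
  | zero =>
    intro t h _ _
    rw [isZ_eq h]; exact R_zero
  | succ k =>
    intro t h w hI
    cases t with
    | z => exact R_zero
    | l c => exact absurd w not_wf_l
    | n t0 t1 t2 t3 t4 =>
      generalize hT : n t0 t1 t2 t3 t4 = t at *
      have h : c0 (zc1 k) t = true := by
        subst hT; exact h
      simp only [c0, Bool.and_eq_true] at h
      have h0 := h
      obtain ⟨hS, he⟩ := node_mem w
      have d0 := dT_spec t (k + 1) w .p05
      have r0 : R (D 0 5 (ev t)) := by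
        have := zc1_sound k _ h0 d0.2.1 (by rw [d0.1]; exact hI.D_eq (s := 0) rfl)
        rwa [d0.1] at this
      have r1 : R (D 1 5 (ev t)) := hI.R_of (s := 0) (t := 1) rfl (by decide) (by decide) (by decide) r0
      have r2 : R (D 2 5 (ev t)) := hI.R_of (s := 0) (t := 2) rfl (by decide) (by decide) (by decide) r0
      have r3 : R (D 3 5 (ev t)) := hI.R_of (s := 0) (t := 3) rfl (by decide) (by decide) (by decide) r0
      have r4 : R (D 4 5 (ev t)) := hI.R_of (s := 0) (t := 4) rfl (by decide) (by decide) (by decide) r0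
      refine R_step hS he fun s hs => ?_
      fin_cases s
      · exact r0
      · exact r1
      · exact r2
      · exact r3
      · exact r4
      · exact absurd rfl hs

end Pool.Agent.FKT
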